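import Mathlib

/-!
# The rational Urysohn space: extension of partial isometries
-/

set_option autoImplicit false

namespace Pool.Agent.H10Q.Ury

/-- A recursion lemma: sequences built one term at a time. -/
theorem exists_seq {X : Type} (P : ℕ → (ℕ → X) → Prop) (Q : ℕ → (ℕ → X) → X → Prop)
    (hP : ∀ k a b, (∀ i < k, a i = b i) → P k a → P k b)
    (hQ : ∀ k a b x, (∀ i < k, a i = b i) → Q k a x → Q k b x)
    (n₀ : ℕ) (a₀ : ℕ → X) (h0 : P n₀ a₀)
    (hstep : ∀ k a, n₀ ≤ k → P k a → ∃ x, P (k + 1) (Function.update a k x) ∧ Q k a x) :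
    ∃ a : ℕ → X, (∀ i < n₀, a i = a₀ i) ∧ ∀ k, n₀ ≤ k → P k a ∧ Q k a (a k) := by
  classical
  have : Nonempty X := ⟨a₀ 0⟩
  choose! f hf using hstep
  let A : ℕ → ℕ → X := fun j => Nat.rec a₀ (fun j b => Function.update b (n₀ + j) (f (n₀ + j) b)) j
  have hA0 : A 0 = a₀ := rfl
  have hAs : ∀ j, A (j + 1) = Function.update (A j) (n₀ + j) (f (n₀ + j) (A j)) := fun j => rfl
  have hPA : ∀ j, P (n₀ + j) (A j) := by
    intro j
    induction j with
    | zero => exact h0
    | succ j ih =>
      rw [hAs]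
      exact (hf (n₀ + j) (A j) (Nat.le_add_right _ _) ih).1
  have hst : ∀ j l i, i < n₀ + j → A (j + l) i = A j i := by
    intro j l i hi
    induction l with
    | zero => rfl
    | succ l ih =>
      rw [← add_assoc, hAs, Function.update_of_ne (by omega), ih]
  let a : ℕ → X := fun i => A (i + 1) i
  have ha : ∀ j i, i < n₀ + j → A j i = a i := by
    intro j i hi
    show A j i = A (i + 1) i
    rcases le_total j (i + 1) with h | h
    · obtain ⟨l, hl⟩ := Nat.exists_eq_add_of_le h
      rw [hl]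
      exact (hst j l i hi).symm
    · obtain ⟨l, hl⟩ := Nat.exists_eq_add_of_le h
      rw [hl]
      exact hst (i + 1) l i (by omega)
  refine ⟨a, fun i hi => ?_, fun k hk => ?_⟩
  · rw [← ha 0 i (by omega), hA0]
  · obtain ⟨j, rfl⟩ := Nat.exists_eq_add_of_le hk
    refine ⟨hP _ _ _ (fun i hi => ha j i hi) (hPA j), ?_⟩
    have h2 := (hf (n₀ + j) (A j) (Nat.le_add_right _ _) (hPA j)).2
    have e : a (n₀ + j) = f (n₀ + j) (A j) := by
      rw [← ha (j + 1) (n₀ + j) (by omega), hAs, Function.update_self]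
    rw [e]
    exact hQ _ _ _ _ (fun i hi => ha j i hi) h2

/-- All distances are rational. -/
def RatDist (X : Type) [MetricSpace X] : Prop := ∀ x y : X, ∃ q : ℚ, dist x y = (q : ℝ)

/-- The one-point extension property. -/
def EP (X : Type) [MetricSpace X] : Prop :=
  ∀ (A : Finset X) (f : X → ℚ), (∀ a ∈ A, 0 < f a) →
    (∀ a ∈ A, ∀ b ∈ A, |(f a : ℝ) - (f b : ℝ)| ≤ dist a b ∧ dist a b ≤ (f a : ℝ) + (f b : ℝ)) →
    ∃ x : X, ∀ a ∈ A, dist x a = (f a : ℝ)

variable {X : Type} [MetricSpace X]

/-- Extension property for indexed families. -/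
theorem EP.ext (h : EP X) {ι : Type} (s : Finset ι) (p : ι → X) (D : ι → ℝ)
    (hrat : ∀ i ∈ s, ∃ q : ℚ, D i = q) (hD : ∀ i ∈ s, 0 ≤ D i)
    (h1 : ∀ i ∈ s, ∀ j ∈ s, D i - D j ≤ dist (p i) (p j))
    (h2 : ∀ i ∈ s, ∀ j ∈ s, dist (p i) (p j) ≤ D i + D j) :
    ∃ x : X, ∀ i ∈ s, dist x (p i) = D i := by
  classical
  by_cases h0 : ∃ i ∈ s, D i = 0
  · obtain ⟨i, hi, hi0⟩ := h0
    refine ⟨p i, fun j hj => ?_⟩
    have h3 := h1 j hj i hi
    have h4 := h2 i hi j hj
    rw [hi0] at h3 h4
    rw [dist_comm] at h3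
    apply le_antisymm <;> linarith
  · push Not at h0
    rcases s.eq_empty_or_nonempty with hs | ⟨i₀, -⟩
    · obtain ⟨x, -⟩ := h ∅ (fun _ => 1) (by simp) (by simp)
      exact ⟨x, by simp [hs]⟩
    have hne : Nonempty ι := ⟨i₀⟩
    choose! q hq using hrat
    -- a preimage
    have hpre : ∀ x : X, x ∈ s.image p → ∃ i ∈ s, p i = x := by
      intro x hx
      simpa using hx
    choose! r hr using hpre
    have hval : ∀ i ∈ s, D (r (p i)) = D i := by
      intro i hi
      obtain ⟨h3, h4⟩ := hr (p i) (Finset.mem_image_of_mem p hi)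
      have h5 := h1 i hi _ h3
      have h6 := h1 _ h3 i hi
      rw [h4, dist_self] at h5 h6
      linarith
    obtain ⟨x, hx⟩ := h (s.image p) (fun x => q (r x)) (by
      intro a ha
      obtain ⟨h3, h4⟩ := hr a ha
      have h5 := h0 _ h3
      have h6 := hD _ h3
      rw [hq _ h3] at h5 h6
      have h7 : (0 : ℝ) < (q (r a) : ℝ) := lt_of_le_of_ne h6 (Ne.symm h5)
      exact_mod_cast h7) (by
      intro a ha b hb
      obtain ⟨h3, h4⟩ := hr a ha
      obtain ⟨h5, h6⟩ := hr b hb
      rw [← hq _ h3, ← hq _ h5]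
      have h7 := h1 _ h3 _ h5
      have h8 := h1 _ h5 _ h3
      have h9 := h2 _ h3 _ h5
      rw [h4, h6] at h7 h9
      rw [h4, h6, dist_comm] at h8
      exact ⟨abs_le.2 ⟨by linarith, by linarith⟩, h9⟩)
    refine ⟨x, fun i hi => ?_⟩
    have h3 := hx (p i) (Finset.mem_image_of_mem p hi)
    rw [h3, ← hq _ (hr (p i) (Finset.mem_image_of_mem p hi)).1]
    exact hval i hi

/-- Extension of partial isometric embeddings of a countable pseudometric space. -/
theorem EP.embed (h : EP X) (D : ℕ → ℕ → ℝ) (hrat : ∀ i j, ∃ q : ℚ, D i j = q)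
    (h0 : ∀ i, D i i = 0) (hs : ∀ i j, D i j = D j i) (ht : ∀ i j k, D i k ≤ D i j + D j k)
    (n : ℕ) (p : ℕ → X) (hp : ∀ i < n, ∀ j < n, dist (p i) (p j) = D i j) :
    ∃ p' : ℕ → X, (∀ i < n, p' i = p i) ∧ ∀ i j, dist (p' i) (p' j) = D i j := by
  classical
  have hnn : ∀ i j, 0 ≤ D i j := by
    intro i j
    have h1 := ht i j i
    rw [h0, hs j i] at h1
    linarith
  obtain ⟨a, ha0, ha⟩ := exists_seq (X := X) (fun k a => ∀ i < k, ∀ j < k, dist (a i) (a j) = D i j)
    (fun _ _ _ => True)
    (by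
      intro k a b hab hk i hi j hj
      rw [← hab i hi, ← hab j hj]
      exact hk i hi j hj)
    (fun _ _ _ _ _ _ => trivial) n p hp
    (by
      intro k a _ hk
      obtain ⟨x, hx⟩ := h.ext (Finset.range k) a (fun i => D k i) (fun i _ => hrat k i)
        (fun i _ => hnn k i) (by
          intro i hi j hj
          rw [Finset.mem_range] at hi hj
          show D k i - D k j ≤ dist (a i) (a j)
          rw [hk i hi j hj]
          have := ht k j i
          rw [hs j i] at this
          linarith) (by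
          intro i hi j hj
          rw [Finset.mem_range] at hi hj
          rw [hk i hi j hj]
          have := ht i k j
          rw [hs i k] at this
          exact this)
      refine ⟨x, ?_, trivial⟩
      intro i hi j hj
      rcases Nat.lt_succ_iff_lt_or_eq.1 hi with hi' | rfl
      · rcases Nat.lt_succ_iff_lt_or_eq.1 hj with hj' | rfl
        · rw [Function.update_of_ne hi'.ne, Function.update_of_ne hj'.ne]
          exact hk i hi' j hj'
        · rw [Function.update_of_ne hi'.ne, Function.update_self, dist_comm,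
            hx i (Finset.mem_range.2 hi'), hs]
      · rcases Nat.lt_succ_iff_lt_or_eq.1 hj with hj' | rfl
        · rw [Function.update_of_ne hj'.ne, Function.update_self, hx j (Finset.mem_range.2 hj')]
        · rw [Function.update_self, dist_self, h0])
  refine ⟨a, ha0, fun i j => ?_⟩
  exact (ha (max n (max i j + 1)) (le_max_left _ _)).1 i (by omega) j (by omega)

/-- Homogeneity: finite partial isometries extend to isometries of the whole space. -/
theorem EP.homog [Countable X] (h : EP X) (hrat : RatDist X) (n : ℕ) (p q : ℕ → X)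
    (hpq : ∀ i < n, ∀ j < n, dist (p i) (p j) = dist (q i) (q j)) :
    ∃ g : X ≃ᵢ X, ∀ i < n, g (p i) = q i := by
  classical
  have hne : Nonempty X := ⟨p 0⟩
  obtain ⟨e0, he0⟩ := exists_surjective_nat X
  let e : ℕ → X := fun k => e0 (Nat.unpair k).1
  have he : ∀ (t : X) (N : ℕ), ∃ k, N ≤ k ∧ e k = t := by
    intro t N
    obtain ⟨i, hi⟩ := he0 t
    refine ⟨Nat.pair i N, Nat.right_le_pair i N, ?_⟩
    show e0 (Nat.unpair (Nat.pair i N)).1 = t
    rw [Nat.unpair_pair]
    exact hi
  -- one step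
  have hstep : ∀ (k : ℕ) (u v : ℕ → X), (∀ i < k, ∀ j < k, dist (u i) (u j) = dist (v i) (v j)) →
      ∀ x : X, ∃ y : X, ∀ i < k, dist x (u i) = dist y (v i) := by
    intro k u v huv x
    obtain ⟨y, hy⟩ := h.ext (Finset.range k) v (fun i => dist x (u i)) (fun i _ => hrat _ _)
      (fun i _ => dist_nonneg) (by
        intro i hi j hj
        rw [Finset.mem_range] at hi hj
        rw [← huv i hi j hj]
        have := dist_triangle x (u j) (u i)
        rw [dist_comm (u j)] at this
        linarith) (by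
        intro i hi j hj
        rw [Finset.mem_range] at hi hj
        rw [← huv i hi j hj, dist_comm x (u i)]
        exact dist_triangle _ _ _)
    exact ⟨y, fun i hi => (hy i (Finset.mem_range.2 hi)).symm⟩
  obtain ⟨a, ha0, ha⟩ := exists_seq (X := X × X)
    (fun k a => ∀ i < k, ∀ j < k, dist (a i).1 (a j).1 = dist (a i).2 (a j).2)
    (fun k _ x => (Even k → x.1 = e (k / 2)) ∧ (¬ Even k → x.2 = e (k / 2)))
    (by
      intro k a b hab hk i hi j hj
      rw [← hab i hi, ← hab j hj]
      exact hk i hi j hj)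
    (fun _ _ _ _ _ h => h)
    n (fun i => (p i, q i)) hpq
    (by
      intro k a _ hk
      have key : ∀ x : X × X, (∀ i < k, dist x.1 (a i).1 = dist x.2 (a i).2) →
          ∀ i < k + 1, ∀ j < k + 1, dist (Function.update a k x i).1 (Function.update a k x j).1 =
            dist (Function.update a k x i).2 (Function.update a k x j).2 := by
        intro x hx i hi j hj
        rcases Nat.lt_succ_iff_lt_or_eq.1 hi with hi' | rfl
        · rcases Nat.lt_succ_iff_lt_or_eq.1 hj with hj' | rfl
          · rw [Function.update_of_ne hi'.ne, Function.update_of_ne hj'.ne]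
            exact hk i hi' j hj'
          · rw [Function.update_of_ne hi'.ne, Function.update_self, dist_comm, hx i hi', dist_comm]
        · rcases Nat.lt_succ_iff_lt_or_eq.1 hj with hj' | rfl
          · rw [Function.update_of_ne hj'.ne, Function.update_self, hx j hj']
          · rw [Function.update_self, dist_self, dist_self]
      by_cases hev : Even k
      · obtain ⟨y, hy⟩ := hstep k (fun i => (a i).1) (fun i => (a i).2) hk (e (k / 2))
        exact ⟨(e (k / 2), y), key _ hy, fun _ => rfl, fun h => absurd hev h⟩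
      · obtain ⟨y, hy⟩ := hstep k (fun i => (a i).2) (fun i => (a i).1)
          (fun i hi j hj => (hk i hi j hj).symm) (e (k / 2))
        exact ⟨(y, e (k / 2)), key _ (fun i hi => (hy i hi).symm), fun h => absurd h hev,
          fun _ => rfl⟩)
  have hd : ∀ i j, dist (a i).1 (a j).1 = dist (a i).2 (a j).2 := fun i j =>
    (ha (max n (max i j + 1)) (le_max_left _ _)).1 i (by omega) j (by omega)
  have hs1 : ∀ b : X, ∃ i, (a i).1 = b := by
    intro b
    obtain ⟨k, hk, hkb⟩ := he b n
    refine ⟨2 * k, ?_⟩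
    rw [(ha (2 * k) (by omega)).2.1 (even_two_mul k), Nat.mul_div_cancel_left k two_pos, hkb]
  have hs2 : ∀ b : X, ∃ i, (a i).2 = b := by
    intro b
    obtain ⟨k, hk, hkb⟩ := he b n
    refine ⟨2 * k + 1, ?_⟩
    have h1 : ¬ Even (2 * k + 1) := Nat.not_even_iff_odd.2 ⟨k, rfl⟩
    have h2 : (2 * k + 1) / 2 = k := by omega
    rw [(ha (2 * k + 1) (by omega)).2.2 h1, h2, hkb]
  have heq : ∀ i j, (a i).1 = (a j).1 ↔ (a i).2 = (a j).2 := by
    intro i j
    rw [← dist_eq_zero, hd, dist_eq_zero]
  choose i1 hi1 using hs1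
  choose i2 hi2 using hs2
  let g : X ≃ X :=
    { toFun := fun b => (a (i1 b)).2
      invFun := fun b => (a (i2 b)).1
      left_inv := by
        intro b
        show (a (i2 (a (i1 b)).2)).1 = b
        rw [(heq _ (i1 b)).2 (hi2 _), hi1]
      right_inv := by
        intro b
        show (a (i1 (a (i2 b)).1)).2 = b
        rw [(heq _ (i2 b)).1 (hi1 _), hi2] }
  refine ⟨⟨g, Isometry.of_dist_eq fun x y => ?_⟩, fun i hi => ?_⟩
  · show dist (a (i1 x)).2 (a (i1 y)).2 = dist x y
    rw [← hd, hi1, hi1]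
  · show (a (i1 (p i))).2 = q i
    have h1 := ha0 i hi
    have h2 : p i = (a i).1 := by rw [h1]
    have h3 : q i = (a i).2 := by rw [h1]
    rw [h2, h3, (heq _ i).1 (hi1 _)]

end Pool.Agent.H10Q.Ury
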