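import Pool.Agent.H10Q.Ury1

/-!
# Existence of the rational Urysohn space
-/

set_option autoImplicit false

namespace Pool.Agent.H10Q.Ury

/-- the distance given by rows -/
def dd (a : ℕ → ℕ → ℚ) (i j : ℕ) : ℚ := if i = j then 0 else if j < i then a i j else a j i

theorem dd_self (a : ℕ → ℕ → ℚ) (i : ℕ) : dd a i i = 0 := by simp [dd]

theorem dd_comm (a : ℕ → ℕ → ℚ) (i j : ℕ) : dd a i j = dd a j i := by
  unfold dd
  by_cases h : i = j
  · simp [h]
  · rw [if_neg h, if_neg (Ne.symm h)]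
    rcases lt_or_gt_of_ne h with h1 | h1
    · rw [if_neg (by omega), if_pos h1]
    · rw [if_pos h1, if_neg (by omega)]

theorem dd_congr {a b : ℕ → ℕ → ℚ} {k : ℕ} (h : ∀ i < k, a i = b i) {i j : ℕ} (hi : i < k)
    (hj : j < k) : dd a i j = dd b i j := by
  unfold dd
  rw [h i hi, h j hj]

/-- the first `k` rows define a metric -/
def IsMet (k : ℕ) (a : ℕ → ℕ → ℚ) : Prop :=
  (∀ i < k, ∀ j < k, i ≠ j → 0 < dd a i j) ∧
    ∀ i < k, ∀ j < k, ∀ l < k, dd a i l ≤ dd a i j + dd a j l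

/-- a valid extension problem -/
def IsTask (k : ℕ) (a : ℕ → ℕ → ℚ) (t : Finset (ℕ × ℚ)) : Prop :=
  (∀ y ∈ t, y.1 < k ∧ 0 < y.2) ∧
    ∀ y ∈ t, ∀ z ∈ t, y.2 - z.2 ≤ dd a y.1 z.1 ∧ dd a y.1 z.1 ≤ y.2 + z.2

theorem step_task (k : ℕ) (a : ℕ → ℕ → ℚ) (ha : IsMet k a) (t : Finset (ℕ × ℚ))
    (ht : IsTask k a t) (hne : t.Nonempty) :
    ∃ x : ℕ → ℚ, IsMet (k + 1) (Function.update a k x) ∧ ∀ y ∈ t, x y.1 = y.2 := by
  classical
  obtain ⟨ha1, ha2⟩ := ha
  obtain ⟨ht1, ht2⟩ := ht
  have hnn : ∀ i < k, ∀ j < k, 0 ≤ dd a i j := by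
    intro i hi j hj
    by_cases h : i = j
    · rw [h, dd_self]
    · exact (ha1 i hi j hj h).le
  have hmin : ∀ i : ℕ, ∃ y ∈ t, ∀ z ∈ t, y.2 + dd a y.1 i ≤ z.2 + dd a z.1 i := fun i =>
    Finset.exists_min_image t (fun y => y.2 + dd a y.1 i) hne
  choose m hm1 hm2 using hmin
  let x : ℕ → ℚ := fun i => (m i).2 + dd a (m i).1 i
  have hx : ∀ i, x i = (m i).2 + dd a (m i).1 i := fun i => rfl
  have hxl : ∀ i, ∀ z ∈ t, x i ≤ z.2 + dd a z.1 i := fun i z hz => hm2 i z hz
  have hpos : ∀ i < k, 0 < x i := by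
    intro i hi
    have h1 := (ht1 _ (hm1 i))
    have h2 := hnn _ h1.1 i hi
    rw [hx]
    linarith [h1.2]
  have hA : ∀ i < k, ∀ j < k, x i ≤ x j + dd a i j := by
    intro i hi j hj
    have h1 := ht1 _ (hm1 j)
    have h2 := hxl i _ (hm1 j)
    have h3 := ha2 _ h1.1 j hj i hi
    rw [dd_comm a j i] at h3
    rw [hx j]
    linarith
  have hB : ∀ i < k, ∀ j < k, dd a i j ≤ x i + x j := by
    intro i hi j hj
    have h1 := ht1 _ (hm1 i)
    have h2 := ht1 _ (hm1 j)
    have h3 := (ht2 _ (hm1 i) _ (hm1 j)).2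
    have h4 := ha2 i hi _ h1.1 j hj
    have h5 := ha2 _ h1.1 _ h2.1 j hj
    rw [dd_comm a i (m i).1] at h4
    rw [hx i, hx j]
    linarith
  have hC : ∀ y ∈ t, x y.1 = y.2 := by
    intro y hy
    apply le_antisymm
    · have := hxl y.1 y hy
      rw [dd_self] at this
      linarith
    · have := (ht2 y hy _ (hm1 y.1)).1
      rw [hx, dd_comm]
      linarith
  have hup : ∀ i < k, ∀ j < k, dd (Function.update a k x) i j = dd a i j := by
    intro i hi j hj
    exact dd_congr (k := k) (fun l hl => Function.update_of_ne hl.ne _ _) hi hj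
  have hup2 : ∀ i < k, dd (Function.update a k x) k i = x i := by
    intro i hi
    unfold dd
    rw [if_neg (by omega), if_pos hi, Function.update_self]
  have hup3 : ∀ i < k, dd (Function.update a k x) i k = x i := by
    intro i hi
    rw [dd_comm, hup2 i hi]
  refine ⟨x, ⟨?_, ?_⟩, hC⟩
  · intro i hi j hj hij
    rcases Nat.lt_succ_iff_lt_or_eq.1 hi with hi' | rfl
    · rcases Nat.lt_succ_iff_lt_or_eq.1 hj with hj' | rfl
      · rw [hup i hi' j hj']
        exact ha1 i hi' j hj' hij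
      · rw [hup3 i hi']
        exact hpos i hi'
    · rcases Nat.lt_succ_iff_lt_or_eq.1 hj with hj' | rfl
      · rw [hup2 j hj']
        exact hpos j hj'
      · exact absurd rfl hij
  · intro i hi j hj l hl
    rcases Nat.lt_succ_iff_lt_or_eq.1 hi with hi' | rfl
    · rcases Nat.lt_succ_iff_lt_or_eq.1 hj with hj' | rfl
      · rcases Nat.lt_succ_iff_lt_or_eq.1 hl with hl' | rfl
        · rw [hup i hi' l hl', hup i hi' j hj', hup j hj' l hl']
          exact ha2 i hi' j hj' l hl'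
        · rw [hup3 i hi', hup i hi' j hj', hup3 j hj']
          have := hA i hi' j hj'
          linarith
      · rcases Nat.lt_succ_iff_lt_or_eq.1 hl with hl' | rfl
        · rw [hup i hi' l hl', hup3 i hi', hup2 l hl']
          exact hB i hi' l hl'
        · rw [hup3 i hi', dd_self, add_zero]
    · rcases Nat.lt_succ_iff_lt_or_eq.1 hj with hj' | rfl
      · rcases Nat.lt_succ_iff_lt_or_eq.1 hl with hl' | rfl
        · rw [hup2 l hl', hup2 j hj', hup j hj' l hl']
          have := hA l hl' j hj'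
          rw [dd_comm a l j] at this
          linarith
        · rw [dd_self, hup2 j hj', hup3 j hj']
          have := hpos j hj'
          linarith
      · rcases Nat.lt_succ_iff_lt_or_eq.1 hl with hl' | rfl
        · rw [dd_self, zero_add]
        · rw [dd_self, zero_add]

theorem step_all (k : ℕ) (a : ℕ → ℕ → ℚ) (ha : IsMet k a) (t : Finset (ℕ × ℚ)) :
    ∃ x : ℕ → ℚ, IsMet (k + 1) (Function.update a k x) ∧ (IsTask k a t → ∀ y ∈ t, x y.1 = y.2) := by
  classical
  by_cases h : IsTask k a t ∧ t.Nonempty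
  · obtain ⟨x, h1, h2⟩ := step_task k a ha t h.1 h.2
    exact ⟨x, h1, fun _ => h2⟩
  · have h' : IsTask k a t → ∀ x : ℕ → ℚ, ∀ y ∈ t, x y.1 = y.2 := by
      intro h1 x y hy
      exact absurd ⟨h1, ⟨y, hy⟩⟩ h
    rcases Nat.eq_zero_or_pos k with rfl | hk
    · refine ⟨fun _ => 0, ⟨?_, ?_⟩, fun h1 => h' h1 (fun _ => 0)⟩
      · intro i hi j hj hij
        omega
      · intro i hi j hj l hl
        have h1 : i = 0 := by omega
        have h2 : j = 0 := by omega
        have h3 : l = 0 := by omega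
        rw [h1, h2, h3, dd_self, add_zero]
    · obtain ⟨x, h1, -⟩ := step_task k a ha {(0, 1)} (by
        refine ⟨?_, ?_⟩
        · intro y hy
          rw [Finset.mem_singleton] at hy
          rw [hy]
          exact ⟨hk, one_pos⟩
        · intro y hy z hz
          rw [Finset.mem_singleton] at hy hz
          rw [hy, hz, dd_self]
          norm_num) ⟨_, Finset.mem_singleton_self _⟩
      exact ⟨x, h1, fun h1 => h' h1 x⟩

/-- **Existence of the rational Urysohn space.** -/
theorem exists_ury : ∃ (X : Type) (_ : MetricSpace X), Countable X ∧ RatDist X ∧ EP X := by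
  classical
  obtain ⟨e0, he0⟩ := exists_surjective_nat (Finset (ℕ × ℚ))
  let e : ℕ → Finset (ℕ × ℚ) := fun k => e0 (Nat.unpair k).1
  have he : ∀ (t : Finset (ℕ × ℚ)) (N : ℕ), ∃ k, N ≤ k ∧ e k = t := by
    intro t N
    obtain ⟨i, hi⟩ := he0 t
    refine ⟨Nat.pair i N, Nat.right_le_pair i N, ?_⟩
    show e0 (Nat.unpair (Nat.pair i N)).1 = t
    rw [Nat.unpair_pair]
    exact hi
  obtain ⟨a, -, ha⟩ := exists_seq (X := ℕ → ℚ) IsMet
    (fun k a x => IsTask k a (e k) → ∀ y ∈ e k, x y.1 = y.2)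
    (by
      intro k a b hab hk
      refine ⟨?_, ?_⟩
      · intro i hi j hj hij
        rw [← dd_congr hab hi hj]
        exact hk.1 i hi j hj hij
      · intro i hi j hj l hl
        rw [← dd_congr hab hi hj, ← dd_congr hab hi hl, ← dd_congr hab hj hl]
        exact hk.2 i hi j hj l hl)
    (by
      intro k a b x hab h1 h2
      apply h1
      refine ⟨h2.1, fun y hy z hz => ?_⟩
      rw [dd_congr hab (h2.1 y hy).1 (h2.1 z hz).1]
      exact h2.2 y hy z hz)
    0 (fun _ _ => 0) ⟨fun i hi => absurd hi (Nat.not_lt_zero i), fun i hi => absurd hi (Nat.not_lt_zero i)⟩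
    (fun k a _ hk => step_all k a hk (e k))
  have hpos : ∀ i j, i ≠ j → 0 < dd a i j := fun i j hij =>
    (ha (max i j + 1) (Nat.zero_le _)).1.1 i (by omega) j (by omega) hij
  have htri : ∀ i j l, dd a i l ≤ dd a i j + dd a j l := fun i j l =>
    (ha (max (max i j) l + 1) (Nat.zero_le _)).1.2 i (by omega) j (by omega) l (by omega)
  let M : MetricSpace ℕ :=
    { dist := fun i j => (dd a i j : ℝ)
      dist_self := fun i => by
        show ((dd a i i : ℚ) : ℝ) = 0
        rw [dd_self]; simp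
      dist_comm := fun i j => by
        show ((dd a i j : ℚ) : ℝ) = ((dd a j i : ℚ) : ℝ)
        rw [dd_comm]
      dist_triangle := fun i j l => by
        show ((dd a i l : ℚ) : ℝ) ≤ ((dd a i j : ℚ) : ℝ) + ((dd a j l : ℚ) : ℝ)
        exact_mod_cast htri i j l
      eq_of_dist_eq_zero := by
        intro i j h
        by_contra hij
        have h1 := hpos i j hij
        have h2 : ((dd a i j : ℚ) : ℝ) = 0 := h
        have h3 : dd a i j = 0 := by exact_mod_cast h2
        linarith }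
  refine ⟨ℕ, M, inferInstance, fun i j => ⟨dd a i j, rfl⟩, ?_⟩
  intro A f hf1 hf2
  obtain ⟨N, hN⟩ : ∃ N, ∀ i ∈ A, i < N := ⟨A.sup id + 1, fun i hi =>
    Nat.lt_succ_of_le (Finset.le_sup (f := id) hi)⟩
  obtain ⟨k, hk, hek⟩ := he (A.image fun i => (i, f i)) N
  have h1 := (ha k (Nat.zero_le _)).2
  have hd : ∀ i j, (@dist ℕ M.toDist i j) = (dd a i j : ℝ) := fun i j => rfl
  have h2 : IsTask k a (e k) := by
    rw [hek]
    refine ⟨?_, ?_⟩
    · intro y hy
      obtain ⟨i, hi, rfl⟩ := Finset.mem_image.1 hy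
      exact ⟨(hN i hi).trans_le hk, hf1 i hi⟩
    · intro y hy z hz
      obtain ⟨i, hi, rfl⟩ := Finset.mem_image.1 hy
      obtain ⟨j, hj, rfl⟩ := Finset.mem_image.1 hz
      obtain ⟨h3, h4⟩ := hf2 i hi j hj
      rw [hd] at h3 h4
      have h5 := (abs_le.1 h3).2
      refine ⟨?_, ?_⟩
      · show f i - f j ≤ dd a i j
        exact_mod_cast h5
      · show dd a i j ≤ f i + f j
        exact_mod_cast h4
  refine ⟨k, fun i hi => ?_⟩
  have h3 := h1 h2 (i, f i) (by rw [hek]; exact Finset.mem_image_of_mem _ hi)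
  rw [hd]
  have h4 : i < k := (hN i hi).trans_le hk
  have h5 : dd a k i = a k i := by
    unfold dd
    rw [if_neg (by omega), if_pos h4]
  rw [h5]
  exact_mod_cast h3

end Pool.Agent.H10Q.Ury
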