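import Mathlib

/-!
# Iterated ultralimits in reflexive spaces and Kalton's interlacing argument
-/

set_option autoImplicit false

namespace Pool.Agent.H10Q.Ury

open Filter Topology

/-- ultralimit of a sequence of real numbers -/
noncomputable def ul (h : ℕ → ℝ) : ℝ := limUnder (hyperfilter ℕ : Filter ℕ) h

theorem ul_tendsto {h : ℕ → ℝ} {C : ℝ} (hC : ∀ n, |h n| ≤ C) :
    Tendsto h (hyperfilter ℕ : Filter ℕ) (𝓝 (ul h)) := by
  have h1 : (((hyperfilter ℕ).map h : Ultrafilter ℝ) : Filter ℝ) ≤ 𝓟 (Set.Icc (-C) C) := by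
    rw [le_principal_iff, Ultrafilter.mem_coe, Ultrafilter.mem_map]
    exact Filter.univ_mem' (fun n => abs_le.1 (hC n))
  obtain ⟨x, -, hx⟩ := isCompact_Icc.ultrafilter_le_nhds _ h1
  exact tendsto_nhds_limUnder ⟨x, hx⟩

theorem ul_eq {h : ℕ → ℝ} {l : ℝ} (hl : Tendsto h (hyperfilter ℕ : Filter ℕ) (𝓝 l)) : ul h = l :=
  hl.limUnder_eq

theorem ul_const (c : ℝ) : ul (fun _ => c) = c := ul_eq tendsto_const_nhds

theorem ul_bdd {h : ℕ → ℝ} {C : ℝ} (hC : ∀ n, |h n| ≤ C) : |ul h| ≤ C :=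
  le_of_tendsto (ul_tendsto hC).abs (Eventually.of_forall hC)

theorem ul_add {h h' : ℕ → ℝ} {C C' : ℝ} (hC : ∀ n, |h n| ≤ C) (hC' : ∀ n, |h' n| ≤ C') :
    ul (fun n => h n + h' n) = ul h + ul h' := ul_eq ((ul_tendsto hC).add (ul_tendsto hC'))

theorem ul_mul {h : ℕ → ℝ} {C : ℝ} (hC : ∀ n, |h n| ≤ C) (c : ℝ) :
    ul (fun n => c * h n) = c * ul h := ul_eq ((ul_tendsto hC).const_mul c)

/-- the iterated ultralimit -/
noncomputable def L : ℕ → (List ℕ → ℝ) → ℝ
  | 0, h => h []
  | k + 1, h => ul (fun n => L k (fun t => h (n :: t)))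

theorem L_bdd (k : ℕ) : ∀ (h : List ℕ → ℝ) (C : ℝ), (∀ t, |h t| ≤ C) → |L k h| ≤ C := by
  induction k with
  | zero => intro h C hC; exact hC []
  | succ k ih => intro h C hC; exact ul_bdd (fun n => ih _ C (fun t => hC (n :: t)))

theorem L_add (k : ℕ) : ∀ (h h' : List ℕ → ℝ) (C C' : ℝ), (∀ t, |h t| ≤ C) → (∀ t, |h' t| ≤ C') →
    L k (fun t => h t + h' t) = L k h + L k h' := by
  induction k with
  | zero => intro h h' C C' _ _; rfl
  | succ k ih =>
    intro h h' C C' hC hC'
    show ul _ = ul _ + ul _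
    rw [← ul_add (fun n => L_bdd k _ C (fun t => hC (n :: t)))
      (fun n => L_bdd k _ C' (fun t => hC' (n :: t)))]
    congr 1
    funext n
    exact ih _ _ C C' (fun t => hC (n :: t)) (fun t => hC' (n :: t))

theorem L_mul (k : ℕ) : ∀ (h : List ℕ → ℝ) (C c : ℝ), (∀ t, |h t| ≤ C) →
    L k (fun t => c * h t) = c * L k h := by
  induction k with
  | zero => intro h C c _; rfl
  | succ k ih =>
    intro h C c hC
    show ul _ = c * ul _
    rw [← ul_mul (fun n => L_bdd k _ C (fun t => hC (n :: t)))]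
    congr 1
    funext n
    exact ih _ C c (fun t => hC (n :: t))

theorem L_const (k : ℕ) (c : ℝ) : L k (fun _ => c) = c := by
  induction k with
  | zero => rfl
  | succ k ih =>
    show ul (fun _ => L k (fun _ => c)) = c
    rw [ih]
    exact ul_const c

/-- iterated quantifier -/
def Ev : ℕ → (List ℕ → Prop) → Prop
  | 0, P => P []
  | k + 1, P => ∀ᶠ n in (hyperfilter ℕ : Filter ℕ), Ev k (fun t => P (n :: t))

theorem Ev_mono (k : ℕ) : ∀ (P Q : List ℕ → Prop), (∀ t, P t → Q t) → Ev k P → Ev k Q := by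
  induction k with
  | zero => intro P Q h hP; exact h [] hP
  | succ k ih =>
    intro P Q h hP
    have hP' : ∀ᶠ n in (hyperfilter ℕ : Filter ℕ), Ev k (fun t => P (n :: t)) := hP
    exact hP'.mono (fun n hn => ih _ _ (fun t => h (n :: t)) hn)

theorem Ev_and (k : ℕ) : ∀ (P Q : List ℕ → Prop), Ev k P → Ev k Q → Ev k (fun t => P t ∧ Q t) := by
  induction k with
  | zero => intro P Q hP hQ; exact ⟨hP, hQ⟩
  | succ k ih =>
    intro P Q hP hQ
    have hP' : ∀ᶠ n in (hyperfilter ℕ : Filter ℕ), Ev k (fun t => P (n :: t)) := hP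
    have hQ' : ∀ᶠ n in (hyperfilter ℕ : Filter ℕ), Ev k (fun t => Q (n :: t)) := hQ
    exact (hP'.and hQ').mono (fun n hn => ih _ _ hn.1 hn.2)

theorem Ev_exists (k : ℕ) : ∀ (P : List ℕ → Prop), Ev k P → ∃ t, P t := by
  induction k with
  | zero => intro P hP; exact ⟨[], hP⟩
  | succ k ih =>
    intro P hP
    have hP' : ∀ᶠ n in (hyperfilter ℕ : Filter ℕ), Ev k (fun t => P (n :: t)) := hP
    obtain ⟨n, hn⟩ := hP'.exists
    obtain ⟨t, ht⟩ := ih _ hn
    exact ⟨n :: t, ht⟩

theorem ev_gt (N : ℕ) : ∀ᶠ n in (hyperfilter ℕ : Filter ℕ), N < n := by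
  have h1 : ∀ᶠ n in (cofinite : Filter ℕ), N < n := by
    rw [Nat.cofinite_eq_atTop]
    exact eventually_gt_atTop N
  exact h1.filter_mono (hyperfilter_le_cofinite (α := ℕ))

/-- increasing lists with entries larger than `N` -/
def Inc : ℕ → List ℕ → Prop
  | _, [] => True
  | N, n :: t => N < n ∧ Inc n t

theorem Ev_inc (k : ℕ) : ∀ N : ℕ, Ev k (fun t => Inc N t ∧ t.length = k) := by
  induction k with
  | zero => intro N; exact ⟨trivial, rfl⟩
  | succ k ih =>
    intro N
    exact (ev_gt N).mono (fun n hn => Ev_mono k _ _ (fun t ht => ⟨⟨hn, ht.1⟩, by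
      rw [List.length_cons, ht.2]⟩) (ih n))

theorem L_lt (k : ℕ) : ∀ (h : List ℕ → ℝ) (C c : ℝ), (∀ t, |h t| ≤ C) → L k h < c →
    Ev k (fun t => h t < c) := by
  induction k with
  | zero => intro h C c _ hc; exact hc
  | succ k ih =>
    intro h C c hC hc
    have h1 := ul_tendsto (fun n => L_bdd k (fun t => h (n :: t)) C (fun t => hC (n :: t)))
    have h2 : ∀ᶠ n in (hyperfilter ℕ : Filter ℕ), L k (fun t => h (n :: t)) < c :=
      h1.eventually (eventually_lt_nhds hc)
    exact h2.mono (fun n hn => ih _ C c (fun t => hC (n :: t)) hn)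

/-- the interlaced iterated ultralimit -/
noncomputable def I : ℕ → (List ℕ → List ℕ → ℝ) → ℝ
  | 0, H => H [] []
  | k + 1, H => ul (fun m => ul (fun n => I k (fun s t => H (m :: s) (n :: t))))

/-- the interlaced iterated quantifier -/
def Ev2 : ℕ → (List ℕ → List ℕ → Prop) → Prop
  | 0, P => P [] []
  | k + 1, P => ∀ᶠ m in (hyperfilter ℕ : Filter ℕ), ∀ᶠ n in (hyperfilter ℕ : Filter ℕ),
      Ev2 k (fun s t => P (m :: s) (n :: t))

theorem I_bdd (k : ℕ) : ∀ (H : List ℕ → List ℕ → ℝ) (C : ℝ), (∀ s t, |H s t| ≤ C) →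
    |I k H| ≤ C := by
  induction k with
  | zero => intro H C hC; exact hC [] []
  | succ k ih =>
    intro H C hC
    exact ul_bdd (fun m => ul_bdd (fun n => ih _ C (fun s t => hC (m :: s) (n :: t))))

theorem I_mono (k : ℕ) : ∀ (H H' : List ℕ → List ℕ → ℝ) (C C' : ℝ), (∀ s t, |H s t| ≤ C) →
    (∀ s t, |H' s t| ≤ C') → Ev2 k (fun s t => H s t ≤ H' s t) → I k H ≤ I k H' := by
  induction k with
  | zero => intro H H' C C' _ _ h; exact h
  | succ k ih =>
    intro H H' C C' hC hC' h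
    have h' : ∀ᶠ m in (hyperfilter ℕ : Filter ℕ), ∀ᶠ n in (hyperfilter ℕ : Filter ℕ),
      Ev2 k (fun s t => H (m :: s) (n :: t) ≤ H' (m :: s) (n :: t)) := h
    refine le_of_tendsto_of_tendsto
      (ul_tendsto (fun m => ul_bdd (fun n => I_bdd k _ C (fun s t => hC (m :: s) (n :: t)))))
      (ul_tendsto (fun m => ul_bdd (fun n => I_bdd k _ C' (fun s t => hC' (m :: s) (n :: t)))))
      (h'.mono fun m hm => ?_)
    refine le_of_tendsto_of_tendsto
      (ul_tendsto (fun n => I_bdd k _ C (fun s t => hC (m :: s) (n :: t))))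
      (ul_tendsto (fun n => I_bdd k _ C' (fun s t => hC' (m :: s) (n :: t))))
      (hm.mono fun n hn => ?_)
    exact ih _ _ C C' (fun s t => hC (m :: s) (n :: t)) (fun s t => hC' (m :: s) (n :: t)) hn

theorem I_right (k : ℕ) : ∀ (h : List ℕ → ℝ), I k (fun _ t => h t) = L k h := by
  induction k with
  | zero => intro h; rfl
  | succ k ih =>
    intro h
    show ul (fun m => ul (fun n => I k (fun s t => h (n :: t)))) = ul _
    rw [ul_const]
    congr 1
    funext n
    exact ih _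

theorem Ev2_mono (k : ℕ) : ∀ (P Q : List ℕ → List ℕ → Prop), (∀ s t, P s t → Q s t) →
    Ev2 k P → Ev2 k Q := by
  induction k with
  | zero => intro P Q h hP; exact h [] [] hP
  | succ k ih =>
    intro P Q h hP
    have h' : ∀ᶠ m in (hyperfilter ℕ : Filter ℕ), ∀ᶠ n in (hyperfilter ℕ : Filter ℕ),
      Ev2 k (fun s t => P (m :: s) (n :: t)) := hP
    exact h'.mono (fun m hm => hm.mono (fun n hn =>
      ih _ _ (fun s t => h (m :: s) (n :: t)) hn))

/-- interlaced lists: `N < m₁ < n₁ < m₂ < n₂ < …` -/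
def Int2 : ℕ → List ℕ → List ℕ → Prop
  | _, [], [] => True
  | N, m :: s, n :: t => N < m ∧ m < n ∧ Int2 n s t
  | _, _, _ => False

theorem Ev2_int (k : ℕ) : ∀ N : ℕ, Ev2 k (Int2 N) := by
  induction k with
  | zero => intro N; exact trivial
  | succ k ih =>
    intro N
    exact (ev_gt N).mono (fun m hm => (ev_gt m).mono (fun n hn =>
      Ev2_mono k _ _ (fun s t h => ⟨hm, hn, h⟩) (ih n)))

section reflexive

variable {E : Type} [NormedAddCommGroup E] [NormedSpace ℝ E]

theorem exists_wlim (hE : Function.Surjective (NormedSpace.inclusionInDoubleDual ℝ E)) (k : ℕ)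
    (f : List ℕ → E) (C : ℝ) (hf : ∀ t, ‖f t‖ ≤ C) :
    ∃ u : E, ∀ φ : StrongDual ℝ E, φ u = L k (fun t => φ (f t)) := by
  have hb : ∀ (φ : StrongDual ℝ E) t, |φ (f t)| ≤ C * ‖φ‖ := by
    intro φ t
    have h1 := φ.le_opNorm (f t)
    rw [Real.norm_eq_abs] at h1
    have h2 := mul_le_mul_of_nonneg_left (hf t) (norm_nonneg φ)
    linarith
  let Λ : StrongDual ℝ (StrongDual ℝ E) := LinearMap.mkContinuous
    { toFun := fun φ => L k (fun t => φ (f t))
      map_add' := fun φ ψ => L_add k (fun t => φ (f t)) (fun t => ψ (f t)) _ _ (hb φ) (hb ψ)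
      map_smul' := fun c φ => L_mul k (fun t => φ (f t)) _ c (hb φ) } C (by
      intro φ
      rw [Real.norm_eq_abs]
      exact L_bdd k _ _ (hb φ))
  obtain ⟨u, hu⟩ := hE Λ
  refine ⟨u, fun φ => ?_⟩
  rw [← NormedSpace.dual_def ℝ E u φ, hu]
  rfl

theorem exists_vlim (k : ℕ) (g : List ℕ → StrongDual ℝ E) (C : ℝ) (hg : ∀ t, ‖g t‖ ≤ C) :
    ∃ v : StrongDual ℝ E, ∀ x : E, v x = L k (fun t => g t x) := by
  have hb : ∀ (x : E) t, |g t x| ≤ C * ‖x‖ := by
    intro x t
    have h1 := (g t).le_opNorm x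
    rw [Real.norm_eq_abs] at h1
    have h2 := mul_le_mul_of_nonneg_right (hg t) (norm_nonneg x)
    linarith
  refine ⟨LinearMap.mkContinuous
    { toFun := fun x => L k (fun t => g t x)
      map_add' := fun x y => by
        rw [← L_add k (fun t => g t x) (fun t => g t y) _ _ (hb x) (hb y)]
        congr 1
        funext t
        exact map_add _ _ _
      map_smul' := fun c x => by
        show _ = c * _
        rw [← L_mul k (fun t => g t x) _ c (hb x)]
        congr 1
        funext t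
        exact map_smul _ _ _ } C (by
      intro x
      rw [Real.norm_eq_abs]
      exact L_bdd k _ _ (hb x)), fun x => rfl⟩

theorem I_eq (hE : Function.Surjective (NormedSpace.inclusionInDoubleDual ℝ E)) (k : ℕ) :
    ∀ (f : List ℕ → E) (g : List ℕ → StrongDual ℝ E) (C C' : ℝ) (_ : ∀ t, ‖f t‖ ≤ C)
      (_ : ∀ t, ‖g t‖ ≤ C') (u : E) (v : StrongDual ℝ E)
      (_ : ∀ φ : StrongDual ℝ E, φ u = L k (fun t => φ (f t)))
      (_ : ∀ x : E, v x = L k (fun t => g t x)),
      I k (fun s t => g t (f s)) = v u := by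
  induction k with
  | zero =>
    intro f g C C' hf hg u v hu hv
    have h1 : v u = v (f []) := hu v
    rw [h1]
    exact (hv (f [])).symm
  | succ k ih =>
    intro f g C C' hf hg u v hu hv
    choose um hum using fun m : ℕ => exists_wlim hE k (fun s => f (m :: s)) C (fun s => hf (m :: s))
    choose vn hvn using fun n : ℕ => exists_vlim k (fun s => g (n :: s)) C' (fun s => hg (n :: s))
    have h1 : ∀ m n, I k (fun s t => g (n :: t) (f (m :: s))) = vn n (um m) := fun m n =>
      ih _ _ C C' (fun s => hf (m :: s)) (fun s => hg (n :: s)) _ _ (hum m) (hvn n)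
    have h2 : ∀ x, v x = ul (fun n => vn n x) := by
      intro x
      rw [hv x]
      show ul _ = ul _
      congr 1
      funext n
      exact (hvn n x).symm
    have h3 : v u = ul (fun m => v (um m)) := by
      rw [hu v]
      show ul _ = ul _
      congr 1
      funext m
      exact (hum m v).symm
    show ul (fun m => ul (fun n => I k (fun s t => g (n :: t) (f (m :: s))))) = v u
    rw [h3]
    congr 1
    funext m
    rw [h2]
    congr 1
    funext n
    exact h1 m n

/-- Kalton's interlacing theorem. -/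
theorem kalton (hE : Function.Surjective (NormedSpace.inclusionInDoubleDual ℝ E)) (k : ℕ)
    (f : List ℕ → E) (C r : ℝ) (hf : ∀ t, ‖f t‖ ≤ C)
    (hr : ∀ s t, Int2 0 s t → ‖f t - f s‖ ≤ r) :
    ∃ u : E, Ev k (fun t => ‖f t - u‖ < r + 1) := by
  obtain ⟨u, hu⟩ := exists_wlim hE k f C hf
  choose g hg1 hg2 using fun t => exists_dual_vector'' ℝ (f t - u)
  obtain ⟨v, hv⟩ := exists_vlim k g 1 hg1
  have hI := I_eq hE k f g C 1 hf hg1 u v hu hv
  have hgb : ∀ t (x : E), |g t x| ≤ ‖x‖ := by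
    intro t x
    have h1 := (g t).le_opNorm x
    rw [Real.norm_eq_abs] at h1
    have h2 := mul_le_mul_of_nonneg_right (hg1 t) (norm_nonneg x)
    linarith
  have hb1 : ∀ s t, |g t (f s)| ≤ C := fun s t => (hgb t (f s)).trans (hf s)
  have h1 : L k (fun t => g t (f t) + (-r)) ≤ I k (fun s t => g t (f s)) := by
    rw [← I_right]
    refine I_mono k _ _ (C + |r|) C ?_ hb1 ?_
    · intro s t
      have h2 := abs_add_le (g t (f t)) (-r)
      rw [abs_neg] at h2
      linarith [hb1 t t]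
    · refine Ev2_mono k _ _ ?_ (Ev2_int k 0)
      intro s t hst
      have h2 := hr s t hst
      have h3 := (abs_le.1 (hgb t (f t - f s))).2
      rw [map_sub] at h3
      linarith
  rw [hI, hv, L_add k _ _ C |r| (fun t => hb1 t t) (fun _ => (abs_neg r).le), L_const] at h1
  have h2 : L k (fun t => ‖f t - u‖) ≤ r := by
    have h3 : (fun t => ‖f t - u‖) = fun t => g t (f t) + (-1) * g t u := by
      funext t
      have h4 : g t (f t - u) = ‖f t - u‖ := hg2 t
      rw [← h4, map_sub]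
      ring
    rw [h3, L_add k _ _ C ‖u‖ (fun t => hb1 t t) (fun t => by
      rw [abs_mul, abs_neg, abs_one, one_mul]
      exact hgb t u), L_mul k _ ‖u‖ _ (fun t => hgb t u)]
    linarith
  refine ⟨u, L_lt k _ (C + ‖u‖) _ (fun t => ?_) (by linarith)⟩
  rw [abs_norm]
  exact (norm_sub_le _ _).trans (by linarith [hf t])

end reflexive

end Pool.Agent.H10Q.Ury
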