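import Pool.Agent.H10Q.Ury1
import Pool.Agent.H10Q.Ury3

/-!
# The metric on lists used for Kalton's interlacing argument, and placing finite sets
-/

set_option autoImplicit false

namespace Pool.Agent.H10Q.Ury

/-- the number of the entries smaller than `t` -/
def cnt (l : List ℕ) (t : ℕ) : ℤ := (l.countP (fun x => decide (x < t)) : ℤ)

theorem cnt_nil (t : ℕ) : cnt [] t = 0 := rfl

theorem cnt_cons_lt {x t : ℕ} (l : List ℕ) (h : x < t) : cnt (x :: l) t = cnt l t + 1 := by
  unfold cnt
  rw [List.countP_cons_of_pos (by simpa using h)]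
  push_cast
  rfl

theorem cnt_cons_ge {x t : ℕ} (l : List ℕ) (h : t ≤ x) : cnt (x :: l) t = cnt l t := by
  unfold cnt
  rw [List.countP_cons_of_neg (by simpa using h)]

theorem cnt_nonneg (l : List ℕ) (t : ℕ) : 0 ≤ cnt l t := Int.natCast_nonneg _

theorem cnt_le (l : List ℕ) (t : ℕ) : cnt l t ≤ l.length := by
  unfold cnt
  exact_mod_cast List.countP_le_length

/-- bounded distance -/
def IsB (l l' : List ℕ) (d : ℕ) : Prop := ∀ t, |cnt l t - cnt l' t| ≤ d

theorem exists_isB (l l' : List ℕ) : IsB l l' (l.length + l'.length) := by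
  intro t
  have h1 := cnt_nonneg l t
  have h2 := cnt_nonneg l' t
  have h3 := cnt_le l t
  have h4 := cnt_le l' t
  rw [abs_le]
  push_cast
  constructor <;> linarith

/-- the sup distance of the counting functions -/
noncomputable def DD (l l' : List ℕ) : ℕ := sInf {d | IsB l l' d}

theorem DD_spec (l l' : List ℕ) : IsB l l' (DD l l') :=
  Nat.sInf_mem (s := {d | IsB l l' d}) ⟨_, exists_isB l l'⟩

theorem DD_le {l l' : List ℕ} {d : ℕ} (h : IsB l l' d) : DD l l' ≤ d := Nat.sInf_le h

theorem DD_self (l : List ℕ) : DD l l = 0 := by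
  have := DD_le (l := l) (l' := l) (d := 0) (fun t => by simp)
  omega

theorem DD_comm (l l' : List ℕ) : DD l l' = DD l' l := by
  apply le_antisymm
  · apply DD_le
    intro t
    rw [abs_sub_comm]
    exact DD_spec l' l t
  · apply DD_le
    intro t
    rw [abs_sub_comm]
    exact DD_spec l l' t

theorem DD_triangle (a b c : List ℕ) : DD a c ≤ DD a b + DD b c := by
  apply DD_le
  intro t
  have h1 := DD_spec a b t
  have h2 := DD_spec b c t
  have h3 := abs_sub_le (cnt a t) (cnt b t) (cnt c t)
  push_cast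
  linarith

theorem int2_cnt : ∀ (s t : List ℕ) (N : ℕ), Int2 N s t →
    (∀ x ≤ N + 1, cnt s x = 0 ∧ cnt t x = 0) ∧ (∀ x, 0 ≤ cnt s x - cnt t x ∧ cnt s x - cnt t x ≤ 1) ∧
    s.length = t.length
  | [], [], N, _ => by
    refine ⟨fun x _ => ⟨rfl, rfl⟩, fun x => ?_, rfl⟩
    rw [cnt_nil]
    norm_num
  | [], _ :: _, _, h => h.elim
  | _ :: _, [], _, h => h.elim
  | m :: s, n :: t, N, h => by
    obtain ⟨h1, h2, h3⟩ := h
    obtain ⟨h4, h5, h6⟩ := int2_cnt s t n h3
    refine ⟨fun x hx => ?_, fun x => ?_, by simp [h6]⟩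
    · rw [cnt_cons_ge _ (by omega : x ≤ m), cnt_cons_ge _ (by omega : x ≤ n)]
      exact h4 x (by omega)
    · rcases le_or_gt x m with hm | hm
      · rw [cnt_cons_ge _ hm, cnt_cons_ge _ (by omega : x ≤ n)]
        exact h5 x
      · rcases le_or_gt x n with hn | hn
        · rw [cnt_cons_lt _ hm, cnt_cons_ge _ hn, (h4 x (by omega)).1, (h4 x (by omega)).2]
          norm_num
        · rw [cnt_cons_lt _ hm, cnt_cons_lt _ hn]
          have := h5 x
          constructor <;> linarith [this.1, this.2]

theorem DD_int2 {s t : List ℕ} {N : ℕ} (h : Int2 N s t) : DD s t ≤ 1 := by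
  obtain ⟨-, h1, -⟩ := int2_cnt s t N h
  apply DD_le
  intro x
  obtain ⟨h2, h3⟩ := h1 x
  rw [abs_of_nonneg h2]
  exact_mod_cast h3

theorem DD_le_length {s t : List ℕ} {k : ℕ} (hs : s.length ≤ k) (ht : t.length ≤ k) : DD s t ≤ k := by
  apply DD_le
  intro x
  have h1 := cnt_nonneg s x
  have h2 := cnt_nonneg t x
  have h3 := cnt_le s x
  have h4 := cnt_le t x
  have h5 : (s.length : ℤ) ≤ k := by exact_mod_cast hs
  have h6 : (t.length : ℤ) ≤ k := by exact_mod_cast ht
  rw [abs_le]
  constructor <;> linarith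

theorem inc_cnt : ∀ (t : List ℕ) (N : ℕ), Inc N t → cnt t (N + 1) = 0
  | [], _, _ => rfl
  | n :: t, N, h => by
    obtain ⟨h1, h2⟩ := h
    rw [cnt_cons_ge _ (by omega : N + 1 ≤ n)]
    have h3 := inc_cnt t n h2
    have h4 : cnt t (N + 1) ≤ cnt t (n + 1) := by
      unfold cnt
      have : List.countP (fun x => decide (x < N + 1)) t ≤ List.countP (fun x => decide (x < n + 1)) t := by
        apply List.countP_mono_left
        intro x _ hx
        simp only [decide_eq_true_eq] at hx ⊢
        omega
      exact_mod_cast this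
    have h5 := cnt_nonneg t (N + 1)
    omega

theorem cnt_all {s : List ℕ} {M : ℕ} (h : ∀ x ∈ s, x < M) : cnt s M = s.length := by
  unfold cnt
  rw [List.countP_eq_length.2]
  intro x hx
  simpa using h x hx

theorem DD_sep {s t : List ℕ} {k M : ℕ} (hs : s.length = k) (ht : t.length = k)
    (h : ∀ x ∈ s, x < M + 1) (h' : Inc M t) : DD s t = k := by
  apply le_antisymm (DD_le_length hs.le ht.le)
  have h1 := DD_spec s t (M + 1)
  rw [cnt_all h, inc_cnt t M h', hs, sub_zero] at h1
  rw [abs_of_nonneg (Int.natCast_nonneg k)] at h1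
  exact_mod_cast h1

variable {X : Type} [MetricSpace X]

theorem EP.nonempty (h : EP X) : Nonempty X := by
  obtain ⟨x, -⟩ := h ∅ (fun _ => 1) (by simp) (by simp)
  exact ⟨x⟩

/-- The lists of natural numbers embed into the Urysohn space. -/
theorem EP.lists (h : EP X) : ∃ q : List ℕ → X, ∀ s t, dist (q s) (q t) = DD s t := by
  have hne := h.nonempty
  obtain ⟨x⟩ := hne
  let e := Denumerable.eqv (List ℕ)
  obtain ⟨p, -, hp⟩ := h.embed (fun i j => (DD (e.symm i) (e.symm j) : ℝ))
    (fun i j => ⟨(DD (e.symm i) (e.symm j) : ℚ), by push_cast; rfl⟩)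
    (fun i => by rw [DD_self]; simp) (fun i j => by rw [DD_comm]) (fun i j k => by
      exact_mod_cast DD_triangle _ _ _) 0 (fun _ => x) (fun i hi => absurd hi (Nat.not_lt_zero i))
  refine ⟨fun s => p (e s), fun s t => ?_⟩
  rw [hp, Equiv.symm_apply_apply, Equiv.symm_apply_apply]

/-- Homogeneity, for families indexed by finite sets. -/
theorem EP.homogF [Countable X] (h : EP X) (hrat : RatDist X) {ι : Type} (s : Finset ι)
    (p q : ι → X) (hpq : ∀ i ∈ s, ∀ j ∈ s, dist (p i) (p j) = dist (q i) (q j)) :
    ∃ g : X ≃ᵢ X, ∀ i ∈ s, g (p i) = q i := by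
  classical
  rcases s.eq_empty_or_nonempty with rfl | ⟨i₀, hi₀⟩
  · exact ⟨1, by simp⟩
  · let e : ℕ → ι := fun n => s.toList.getD n i₀
    have he : ∀ n < s.toList.length, e n ∈ s := by
      intro n hn
      have h1 : e n = s.toList[n] := List.getD_eq_getElem _ _ hn
      rw [h1, ← Finset.mem_toList]
      exact List.getElem_mem hn
    obtain ⟨g, hg⟩ := h.homog hrat s.toList.length (p ∘ e) (q ∘ e)
      (fun i hi j hj => hpq _ (he i hi) _ (he j hj))
    refine ⟨g, fun i hi => ?_⟩
    obtain ⟨n, hn, hni⟩ := List.getElem_of_mem (Finset.mem_toList.2 hi)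
    have h1 : e n = i := by
      have h1 : e n = s.toList[n] := List.getD_eq_getElem _ _ hn
      rw [h1, hni]
    have h2 := hg n hn
    simp only [Function.comp_apply, h1] at h2
    exact h2

/-- Placing a finite set at prescribed distances from another finite set. -/
theorem EP.place [Countable X] (h : EP X) (hrat : RatDist X) (A F : Finset X) (D : X → X → ℝ)
    (hq : ∀ b ∈ F, ∀ a ∈ A, ∃ r : ℚ, D b a = r)
    (h1 : ∀ b ∈ F, ∀ a ∈ A, ∀ a' ∈ A, D b a - D b a' ≤ dist a a')
    (h2 : ∀ b ∈ F, ∀ a ∈ A, ∀ a' ∈ A, dist a a' ≤ D b a + D b a')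
    (h3 : ∀ b ∈ F, ∀ b' ∈ F, ∀ a ∈ A, D b a - D b' a ≤ dist b b')
    (h4 : ∀ b ∈ F, ∀ b' ∈ F, ∀ a ∈ A, dist b b' ≤ D b a + D b' a) :
    ∃ g : X ≃ᵢ X, ∀ b ∈ F, ∀ a ∈ A, dist (g b) a = D b a := by
  classical
  have key : ∃ φ : X → X, (∀ b ∈ F, ∀ a ∈ A, dist (φ b) a = D b a) ∧
      ∀ b ∈ F, ∀ b' ∈ F, dist (φ b) (φ b') = dist b b' := by
    induction F using Finset.induction_on with
    | empty => exact ⟨id, by simp, by simp⟩
    | insert b F hb ih =>
      obtain ⟨φ, hφ1, hφ2⟩ := ih
        (fun c hc => hq c (Finset.mem_insert_of_mem hc))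
        (fun c hc => h1 c (Finset.mem_insert_of_mem hc))
        (fun c hc => h2 c (Finset.mem_insert_of_mem hc))
        (fun c hc c' hc' => h3 c (Finset.mem_insert_of_mem hc) c' (Finset.mem_insert_of_mem hc'))
        (fun c hc c' hc' => h4 c (Finset.mem_insert_of_mem hc) c' (Finset.mem_insert_of_mem hc'))
      have hbF : b ∈ insert b F := Finset.mem_insert_self b F
      have hcF : ∀ c ∈ F, c ∈ insert b F := fun c hc => Finset.mem_insert_of_mem hc
      obtain ⟨x, hx⟩ := h.ext (A.disjSum F) (Sum.elim id φ) (Sum.elim (D b) (dist b)) (by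
          intro i hi
          rcases Finset.mem_disjSum.1 hi with ⟨a, ha, rfl⟩ | ⟨c, hc, rfl⟩
          · exact hq b hbF a ha
          · exact hrat _ _) (by
          intro i hi
          rcases Finset.mem_disjSum.1 hi with ⟨a, ha, rfl⟩ | ⟨c, hc, rfl⟩
          · have := h2 b hbF a ha a ha
            rw [dist_self] at this
            show 0 ≤ D b a
            linarith
          · exact dist_nonneg) (by
          intro i hi j hj
          rcases Finset.mem_disjSum.1 hi with ⟨a, ha, rfl⟩ | ⟨c, hc, rfl⟩
          · rcases Finset.mem_disjSum.1 hj with ⟨a', ha', rfl⟩ | ⟨c', hc', rfl⟩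
            · exact h1 b hbF a ha a' ha'
            · show D b a - dist b c' ≤ dist a (φ c')
              rw [dist_comm a (φ c'), hφ1 c' hc' a ha]
              linarith [h3 b hbF c' (hcF c' hc') a ha]
          · rcases Finset.mem_disjSum.1 hj with ⟨a', ha', rfl⟩ | ⟨c', hc', rfl⟩
            · show dist b c - D b a' ≤ dist (φ c) a'
              rw [hφ1 c hc a' ha']
              linarith [h4 b hbF c (hcF c hc) a' ha']
            · show dist b c - dist b c' ≤ dist (φ c) (φ c')
              rw [hφ2 c hc c' hc']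
              have := dist_triangle b c' c
              rw [dist_comm c' c] at this
              linarith) (by
          intro i hi j hj
          rcases Finset.mem_disjSum.1 hi with ⟨a, ha, rfl⟩ | ⟨c, hc, rfl⟩
          · rcases Finset.mem_disjSum.1 hj with ⟨a', ha', rfl⟩ | ⟨c', hc', rfl⟩
            · exact h2 b hbF a ha a' ha'
            · show dist a (φ c') ≤ D b a + dist b c'
              rw [dist_comm a (φ c'), hφ1 c' hc' a ha]
              have := h3 c' (hcF c' hc') b hbF a ha
              rw [dist_comm c' b] at this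
              linarith
          · rcases Finset.mem_disjSum.1 hj with ⟨a', ha', rfl⟩ | ⟨c', hc', rfl⟩
            · show dist (φ c) a' ≤ dist b c + D b a'
              rw [hφ1 c hc a' ha']
              have := h3 c (hcF c hc) b hbF a' ha'
              rw [dist_comm c b] at this
              linarith
            · show dist (φ c) (φ c') ≤ dist b c + dist b c'
              rw [hφ2 c hc c' hc', dist_comm b c]
              exact dist_triangle _ _ _)
      refine ⟨Function.update φ b x, ?_, ?_⟩
      · intro c hc a ha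
        rcases Finset.mem_insert.1 hc with rfl | hc'
        · rw [Function.update_self]
          exact hx (Sum.inl a) (Finset.inl_mem_disjSum.2 ha)
        · have hne : c ≠ b := by
            rintro rfl
            exact hb hc'
          rw [Function.update_of_ne hne]
          exact hφ1 c hc' a ha
      · have hxb : ∀ c ∈ F, dist x (φ c) = dist b c := fun c hc =>
          hx (Sum.inr c) (Finset.inr_mem_disjSum.2 hc)
        have hne : ∀ c ∈ F, c ≠ b := by
          rintro c hc rfl
          exact hb hc
        intro c hc c' hc'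
        rcases Finset.mem_insert.1 hc with rfl | hc1
        · rcases Finset.mem_insert.1 hc' with rfl | hc2
          · rw [dist_self, dist_self]
          · rw [Function.update_self, Function.update_of_ne (hne c' hc2)]
            exact hxb c' hc2
        · rcases Finset.mem_insert.1 hc' with rfl | hc2
          · rw [Function.update_self, Function.update_of_ne (hne c hc1), dist_comm, hxb c hc1,
              dist_comm]
          · rw [Function.update_of_ne (hne c hc1), Function.update_of_ne (hne c' hc2)]
            exact hφ2 c hc1 c' hc2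
  obtain ⟨φ, hφ1, hφ2⟩ := key
  obtain ⟨g, hg⟩ := h.homogF hrat F id φ (fun i hi j hj => (hφ2 i hi j hj).symm)
  refine ⟨g, fun b hb a ha => ?_⟩
  have := hg b hb
  rw [id] at this
  rw [this]
  exact hφ1 b hb a ha

end Pool.Agent.H10Q.Ury
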