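import Pool.Agent.H10Q.Ury4

/-!
# Orbits of continuous affine isometric actions on reflexive spaces are bounded
-/

set_option autoImplicit false

namespace Pool.Agent.H10Q.Ury

variable {X : Type} [MetricSpace X]

/-- a length function on the isometry group which is small on the pointwise stabiliser of `F` -/
structure Len (δ : (X ≃ᵢ X) → ℝ) (F : Finset X) : Prop where
  mul : ∀ g h, δ (g * h) ≤ δ g + δ h
  inv : ∀ g, δ g⁻¹ = δ g
  small : ∀ g : X ≃ᵢ X, (∀ x ∈ F, g x = x) → δ g ≤ 1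

theorem mul_app (g h : X ≃ᵢ X) (x : X) : (g * h) x = g (h x) := rfl

theorem inv_app_iff (g : X ≃ᵢ X) (x y : X) : g⁻¹ x = y ↔ x = g y := by
  constructor
  · rintro rfl
    exact (g.apply_symm_apply x).symm
  · rintro rfl
    exact g.symm_apply_apply y

theorem app_inv (g : X ≃ᵢ X) (x : X) : g (g⁻¹ x) = x := g.apply_symm_apply x

theorem dist_inv (g : X ≃ᵢ X) (x y : X) : dist (g⁻¹ x) y = dist x (g y) := by
  rw [← g.isometry.dist_eq, app_inv]

/-- The length is bounded on the stabiliser of a point. -/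
theorem Len.stab [Countable X] (h : EP X) (hrat : RatDist X) {δ : (X ≃ᵢ X) → ℝ} {F : Finset X}
    (hδ : Len δ F) {x₀ : X} (hx₀ : x₀ ∈ F) : ∃ c : ℝ, ∀ k : X ≃ᵢ X, k x₀ = x₀ → δ k ≤ c := by
  classical
  have hfree : ∀ A : Finset X, ∃ g : X ≃ᵢ X, ∀ b ∈ F, ∀ a ∈ A,
      dist (g b) a = dist b x₀ + dist x₀ a := by
    intro A
    apply h.place hrat A F (fun b a => dist b x₀ + dist x₀ a)
    · intro b _ a _
      obtain ⟨q, hq⟩ := hrat b x₀
      obtain ⟨r, hr⟩ := hrat x₀ a
      exact ⟨q + r, by rw [hq, hr]; push_cast; rfl⟩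
    · intro b _ a _ a' _
      have := dist_triangle x₀ a' a
      rw [dist_comm a' a] at this
      linarith
    · intro b _ a _ a' _
      have h1 := dist_triangle a x₀ a'
      rw [dist_comm a x₀] at h1
      have h2 := dist_nonneg (x := b) (y := x₀)
      linarith
    · intro b _ b' _ a _
      have := dist_triangle b b' x₀
      linarith
    · intro b _ b' _ a _
      have h1 := dist_triangle b x₀ b'
      rw [dist_comm x₀ b'] at h1
      have h2 := dist_nonneg (x := x₀) (y := a)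
      linarith
  obtain ⟨g₀, hg₀⟩ := hfree F
  have key : ∀ g : X ≃ᵢ X, (∀ b ∈ F, ∀ a ∈ F, dist (g b) a = dist b x₀ + dist x₀ a) →
      δ g ≤ 2 + δ g₀ := by
    intro g hg
    obtain ⟨u, hu⟩ := h.homogF hrat (F.disjSum F) (Sum.elim id (fun b => g₀ b))
      (Sum.elim id (fun b => g b)) (by
        intro i hi j hj
        rcases Finset.mem_disjSum.1 hi with ⟨a, ha, rfl⟩ | ⟨b, hb, rfl⟩
        · rcases Finset.mem_disjSum.1 hj with ⟨a', ha', rfl⟩ | ⟨b', hb', rfl⟩
          · rfl
          · show dist a (g₀ b') = dist a (g b')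
            rw [dist_comm a, dist_comm a, hg₀ b' hb' a ha, hg b' hb' a ha]
        · rcases Finset.mem_disjSum.1 hj with ⟨a', ha', rfl⟩ | ⟨b', hb', rfl⟩
          · show dist (g₀ b) a' = dist (g b) a'
            rw [hg₀ b hb a' ha', hg b hb a' ha']
          · show dist (g₀ b) (g₀ b') = dist (g b) (g b')
            rw [g₀.isometry.dist_eq, g.isometry.dist_eq])
    have hu1 : ∀ a ∈ F, u a = a := fun a ha => hu (Sum.inl a) (Finset.inl_mem_disjSum.2 ha)
    have hu2 : ∀ b ∈ F, u (g₀ b) = g b := fun b hb => hu (Sum.inr b) (Finset.inr_mem_disjSum.2 hb)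
    have h1 := hδ.small u hu1
    have h2 : δ (g⁻¹ * u * g₀) ≤ 1 := by
      apply hδ.small
      intro b hb
      show g⁻¹ (u (g₀ b)) = b
      rw [inv_app_iff]
      exact hu2 b hb
    have h3 : g = (u * g₀) * (g⁻¹ * u * g₀)⁻¹ := by group
    have h4 := hδ.mul (u * g₀) (g⁻¹ * u * g₀)⁻¹
    have h5 := hδ.mul u g₀
    rw [← h3, hδ.inv] at h4
    linarith
  refine ⟨2 * (2 + δ g₀), fun k hk => ?_⟩
  obtain ⟨g, hg⟩ := hfree (F ∪ F.image k)
  have h1 := key g (fun b hb a ha => hg b hb a (Finset.mem_union_left _ ha))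
  have h2 := key (k⁻¹ * g) (by
    intro b hb a ha
    show dist (k⁻¹ (g b)) a = _
    rw [dist_inv, hg b hb _ (Finset.mem_union_right _ (Finset.mem_image_of_mem k ha))]
    congr 1
    conv_lhs => rw [← hk]
    exact k.isometry.dist_eq _ _)
  have h3 : k = g * (k⁻¹ * g)⁻¹ := by group
  have h4 := hδ.mul g (k⁻¹ * g)⁻¹
  rw [← h3, hδ.inv] at h4
  linarith

/-- The length depends up to a constant only on the displacement of a point. -/
theorem Len.disp [Countable X] (h : EP X) (hrat : RatDist X) {δ : (X ≃ᵢ X) → ℝ} {F : Finset X}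
    (hδ : Len δ F) {x₀ : X} {c : ℝ} (hc : ∀ k : X ≃ᵢ X, k x₀ = x₀ → δ k ≤ c)
    (g g' : X ≃ᵢ X) (hg : dist (g x₀) x₀ = dist (g' x₀) x₀) : δ g' ≤ δ g + 2 * c := by
  classical
  obtain ⟨k, hk⟩ := h.homogF hrat (Finset.univ : Finset Bool) (fun i => if i then x₀ else g x₀)
    (fun i => if i then x₀ else g' x₀) (by
      intro i _ j _
      cases i <;> cases j
      · simp
      · simpa using hg
      · simpa [dist_comm] using hg
      · simp)
  have hk1 : k x₀ = x₀ := by simpa using hk true (Finset.mem_univ _)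
  have hk2 : k (g x₀) = g' x₀ := by simpa using hk false (Finset.mem_univ _)
  have h1 := hc k hk1
  have h2 : δ (g'⁻¹ * k * g) ≤ c := by
    apply hc
    show g'⁻¹ (k (g x₀)) = x₀
    rw [inv_app_iff]
    exact hk2
  have h3 : g' = (k * g) * (g'⁻¹ * k * g)⁻¹ := by group
  have h4 := hδ.mul (k * g) (g'⁻¹ * k * g)⁻¹
  have h5 := hδ.mul k g
  rw [← h3, hδ.inv] at h4
  linarith

theorem exists_move [Countable X] (h : EP X) (hrat : RatDist X) (x y : X) :
    ∃ g : X ≃ᵢ X, g x = y := by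
  obtain ⟨g, hg⟩ := h.homogF hrat (Finset.univ : Finset Unit) (fun _ => x) (fun _ => y)
    (by intro i _ j _; simp)
  exact ⟨g, hg () (Finset.mem_univ _)⟩

section action

variable {E : Type} [NormedAddCommGroup E] [NormedSpace ℝ E]

theorem dist_mul (α : (X ≃ᵢ X) →* (E ≃ᵃⁱ[ℝ] E)) (g h : X ≃ᵢ X) (v : E) :
    dist (α (g * h) v) v ≤ dist (α g v) v + dist (α h v) v := by
  have h1 : α (g * h) v = α g (α h v) := by rw [map_mul]; rfl
  rw [h1]
  have h2 := dist_triangle (α g (α h v)) (α g v) v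
  rw [(α g).dist_map] at h2
  linarith

theorem app_inv' (α : (X ≃ᵢ X) →* (E ≃ᵃⁱ[ℝ] E)) (g : X ≃ᵢ X) (v : E) :
    α g⁻¹ (α g v) = v := by
  have h1 : α g⁻¹ (α g v) = α (g⁻¹ * g) v := by rw [map_mul]; rfl
  rw [h1, inv_mul_cancel, map_one]
  rfl

theorem dist_inv' (α : (X ≃ᵢ X) →* (E ≃ᵃⁱ[ℝ] E)) (g : X ≃ᵢ X) (v : E) :
    dist (α g⁻¹ v) v = dist (α g v) v := by
  conv_lhs => rw [← (α g).dist_map]
  have h1 : α g (α g⁻¹ v) = v := by
    have := app_inv' α g⁻¹ v
    rwa [inv_inv] at this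
  rw [h1, dist_comm]

/-- Every orbit of `0` is bounded. -/
theorem bounded [Countable X] (h : EP X) (hrat : RatDist X)
    (hE : Function.Surjective (NormedSpace.inclusionInDoubleDual ℝ E))
    (α : (X ≃ᵢ X) →* (E ≃ᵃⁱ[ℝ] E)) (F : Finset X)
    (hF : ∀ g : X ≃ᵢ X, (∀ x ∈ F, g x = x) → dist (α g 0) 0 ≤ 1) :
    ∃ B : ℝ, ∀ g : X ≃ᵢ X, dist (α g 0) 0 ≤ B := by
  classical
  obtain ⟨q, hq⟩ := h.lists
  let x₀ : X := q []
  let F' : Finset X := insert x₀ F
  have hlen : Len (fun g => dist (α g 0) 0) F' :=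
    ⟨fun g g' => dist_mul α g g' 0, fun g => dist_inv' α g 0,
      fun g hg => hF g (fun x hx => hg x (Finset.mem_insert_of_mem hx))⟩
  obtain ⟨c, hc⟩ := hlen.stab h hrat (Finset.mem_insert_self x₀ F)
  have hdisp := fun g g' => hlen.disp h hrat hc g g'
  -- isometries moving the base point to the points of the embedded space
  choose G hG using fun l : List ℕ => exists_move h hrat x₀ (q l)
  -- bounds for integral displacements
  have hC : ∀ j : ℕ, ∃ C : ℝ, ∀ g : X ≃ᵢ X, dist (g x₀) x₀ = j → dist (α g 0) 0 ≤ C := by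
    intro j
    obtain ⟨l, hl⟩ : ∃ l : List ℕ, DD l [] = j := by
      refine ⟨List.replicate j 0, ?_⟩
      apply le_antisymm
      · exact DD_le_length (by simp) (by simp)
      · have h1 := DD_spec (List.replicate j 0) [] 1
        rw [cnt_all (by intro x hx; rw [(List.mem_replicate.1 hx).2]; norm_num), cnt_nil,
          List.length_replicate, sub_zero, abs_of_nonneg (Int.natCast_nonneg j)] at h1
        exact_mod_cast h1
    refine ⟨dist (α (G l) 0) 0 + 2 * c, fun g hg => hdisp (G l) g ?_⟩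
    rw [hG, hg, hq, hl]
  choose C hC using hC
  let r : ℝ := max (C 0) (C 1)
  -- differences of two elements
  have hdiff : ∀ g g' : X ≃ᵢ X, dist (α (g⁻¹ * g') 0) 0 = ‖α g' 0 - α g 0‖ := by
    intro g g'
    have h1 : α (g⁻¹ * g') 0 = α g⁻¹ (α g' 0) := by rw [map_mul]; rfl
    rw [h1, ← dist_eq_norm]
    conv_lhs => rw [← (α g).dist_map]
    have h2 : α g (α g⁻¹ (α g' 0)) = α g' 0 := by
      have := app_inv' α g⁻¹ (α g' 0)
      rwa [inv_inv] at this
    rw [h2]
  have hdd : ∀ s t, dist (((G s)⁻¹ * G t) x₀) x₀ = DD t s := by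
    intro s t
    show dist ((G s)⁻¹ (G t x₀)) x₀ = _
    rw [dist_inv, hG, hG, hq]
  -- large displacements
  have hbig : ∀ (k : ℕ) (g : X ≃ᵢ X), dist (g x₀) x₀ = k →
      dist (α g 0) 0 ≤ 2 * (r + 1) + 2 * c := by
    intro k g hg
    let f : List ℕ → E := fun l => if l.length = k then α (G l) 0 else 0
    obtain ⟨C', hC'⟩ : ∃ C' : ℝ, ∀ j ≤ k, C j ≤ C' := by
      refine ⟨(Finset.range (k + 1)).sup' ⟨0, by simp⟩ C, fun j hj => ?_⟩
      exact Finset.le_sup' C (Finset.mem_range.2 (Nat.lt_succ_of_le hj))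
    have hf : ∀ t, ‖f t‖ ≤ max C' 0 := by
      intro t
      by_cases ht : t.length = k
      · have h1 : f t = α (G t) 0 := if_pos ht
        rw [h1, ← dist_zero_right]
        have h2 : dist (G t x₀) x₀ = DD t [] := by rw [hG, hq]
        exact ((hC _ _ h2).trans (hC' _ (DD_le_length ht.le (by simp)))).trans (le_max_left _ _)
      · have h1 : f t = 0 := if_neg ht
        rw [h1, norm_zero]
        exact le_max_right _ _
    have hr0 : 0 ≤ r := by
      have h1 : dist (α 1 0) (0 : E) ≤ C 0 := hC 0 1 (by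
        show dist x₀ x₀ = _
        rw [dist_self, Nat.cast_zero])
      exact (dist_nonneg.trans h1).trans (le_max_left _ _)
    have hr : ∀ s t, Int2 0 s t → ‖f t - f s‖ ≤ r := by
      intro s t hst
      have hl := (int2_cnt s t 0 hst).2.2
      by_cases hs : s.length = k
      · have h1 : f s = α (G s) 0 := if_pos hs
        have h2 : f t = α (G t) 0 := if_pos (by rw [← hl, hs])
        rw [h1, h2, ← hdiff]
        have h3 := DD_int2 hst
        rw [DD_comm] at h3
        have h4 := hdd s t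
        rcases Nat.le_one_iff_eq_zero_or_eq_one.1 h3 with h5 | h5
        · rw [h5] at h4
          exact (hC 0 _ h4).trans (le_max_left _ _)
        · rw [h5] at h4
          exact (hC 1 _ h4).trans (le_max_right _ _)
      · have h1 : f s = 0 := if_neg hs
        have h2 : f t = 0 := if_neg (by rw [← hl]; exact hs)
        rw [h1, h2, sub_self, norm_zero]
        exact hr0
    obtain ⟨u, hu⟩ := kalton hE k f (max C' 0) r hf hr
    obtain ⟨s, hs1, hs2, hs3⟩ := Ev_exists k _ (Ev_and k _ _ hu (Ev_inc k 0))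
    obtain ⟨M, hM⟩ : ∃ M, ∀ x ∈ s, x < M + 1 := by
      refine ⟨s.sum, fun x hx => Nat.lt_succ_of_le (List.single_le_sum (by simp) x hx)⟩
    obtain ⟨t, ht1, ht2, ht3⟩ := Ev_exists k _ (Ev_and k _ _ hu (Ev_inc k M))
    have h1 : dist (((G s)⁻¹ * G t) x₀) x₀ = dist (g x₀) x₀ := by
      rw [hdd, hg, DD_comm, DD_sep hs3 ht3 hM ht2]
    have h2 := hdisp _ g h1
    have h3 : dist (α ((G s)⁻¹ * G t) 0) 0 < 2 * (r + 1) := by
      rw [hdiff]
      have h4 : f s = α (G s) 0 := if_pos hs3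
      have h5 : f t = α (G t) 0 := if_pos ht3
      rw [← h4, ← h5]
      have h6 : f t - f s = (f t - u) - (f s - u) := by abel
      rw [h6]
      have h7 := norm_sub_le (f t - u) (f s - u)
      linarith
    have h2' : dist (α g 0) 0 ≤ dist (α ((G s)⁻¹ * G t) 0) 0 + 2 * c := h2
    linarith
  refine ⟨2 * (2 * (r + 1) + 2 * c), fun g => ?_⟩
  obtain ⟨k, hk⟩ := exists_nat_ge (dist (g x₀) x₀)
  obtain ⟨y, hy⟩ := h.ext ({x₀, g x₀} : Finset X) id (fun _ => (k : ℝ))
    (fun _ _ => ⟨k, by push_cast; rfl⟩) (fun _ _ => Nat.cast_nonneg k)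
    (fun _ _ _ _ => by rw [sub_self]; exact dist_nonneg) (by
      intro i hi j hj
      have hk0 : (0 : ℝ) ≤ k := Nat.cast_nonneg k
      have h1 : dist (id i) (id j) ≤ (k : ℝ) := by
        rw [Finset.mem_insert, Finset.mem_singleton] at hi hj
        rcases hi with rfl | rfl <;> rcases hj with rfl | rfl
        · simpa using hk0
        · rw [dist_comm]; exact hk
        · exact hk
        · simpa using hk0
      linarith)
  have hy1 : dist y x₀ = k := hy x₀ (by simp)
  have hy2 : dist y (g x₀) = k := hy (g x₀) (by simp)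
  obtain ⟨g', hg'⟩ := exists_move h hrat x₀ y
  have h1 := hbig k g' (by rw [hg', hy1])
  have h2 := hbig k (g'⁻¹ * g) (by
    show dist (g'⁻¹ (g x₀)) x₀ = _
    rw [dist_inv, hg', dist_comm, hy2])
  have h3 := dist_mul α g' (g'⁻¹ * g) 0
  rw [mul_inv_cancel_left] at h3
  linarith

end action

end Pool.Agent.H10Q.Ury
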