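import Pool.Agent.H10Q.Ury5

/-!
# Fixed points of bounded affine isometric actions of the isometry group of the Urysohn space
-/

set_option autoImplicit false

namespace Pool.Agent.H10Q.Ury

open Filter Topology

section mazur

variable {E : Type} [NormedAddCommGroup E] [NormedSpace ℝ E]

theorem exists_weak (hE : Function.Surjective (NormedSpace.inclusionInDoubleDual ℝ E))
    (a : ℕ → E) (C : ℝ) (ha : ∀ n, ‖a n‖ ≤ C) :
    ∃ w : E, ∀ N : ℕ, w ∈ closure (convexHull ℝ {x | ∃ n, N ≤ n ∧ a n = x}) := by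
  obtain ⟨w, hw⟩ := exists_wlim hE 1 (fun t => a t.headI) C (fun t => ha _)
  have hw' : ∀ φ : StrongDual ℝ E, φ w = ul (fun n => φ (a n)) := hw
  refine ⟨w, fun N => ?_⟩
  by_contra hcon
  obtain ⟨f, s, h1, h2⟩ := geometric_hahn_banach_closed_point
    (convex_convexHull ℝ {x | ∃ n, N ≤ n ∧ a n = x}).closure isClosed_closure hcon
  rw [hw' f] at h2
  have hb : ∀ n, |f (a n)| ≤ ‖f‖ * C := by
    intro n
    have h3 := f.le_opNorm (a n)
    rw [Real.norm_eq_abs] at h3
    exact h3.trans (mul_le_mul_of_nonneg_left (ha n) (norm_nonneg f))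
  have h3 : ul (fun n => f (a n)) ≤ s := by
    refine le_of_tendsto (ul_tendsto hb) ((ev_gt N).mono fun n hn => ?_)
    exact (h1 _ (subset_closure (subset_convexHull ℝ _ ⟨n, hn.le, rfl⟩))).le
  linarith

theorem exists_finite_hull (a : ℕ → E) (N : ℕ) (z : E)
    (hz : z ∈ convexHull ℝ {x | ∃ n, N ≤ n ∧ a n = x}) :
    ∃ N' : ℕ, z ∈ convexHull ℝ {x | ∃ n, N ≤ n ∧ n < N' ∧ a n = x} := by
  rw [convexHull_eq_union_convexHull_finite_subsets] at hz
  simp only [Set.mem_iUnion] at hz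
  obtain ⟨t, ht, hz⟩ := hz
  have ht' : ∀ x ∈ t, ∃ n, N ≤ n ∧ a n = x := fun x hx => ht hx
  choose! n hn1 hn2 using ht'
  refine ⟨t.sup n + 1, convexHull_mono ?_ hz⟩
  intro x hx
  exact ⟨n x, hn1 x hx, Nat.lt_succ_of_le (Finset.le_sup (f := n) hx), hn2 x hx⟩

theorem convex_near (T S : E ≃ᵃⁱ[ℝ] E) (ε : ℝ) : Convex ℝ {z : E | dist (T z) (S z) ≤ ε} := by
  have h1 := (convex_closedBall (0 : E) ε).affine_preimage
    (T.toAffineEquiv.toAffineMap - S.toAffineEquiv.toAffineMap)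
  have h2 : {z : E | dist (T z) (S z) ≤ ε} =
      (T.toAffineEquiv.toAffineMap - S.toAffineEquiv.toAffineMap) ⁻¹' Metric.closedBall (0 : E) ε := by
    ext z
    rw [Set.mem_preimage, mem_closedBall_zero_iff]
    show dist (T z) (S z) ≤ ε ↔ ‖T z - S z‖ ≤ ε
    rw [dist_eq_norm]
  rw [h2]
  exact h1

end mazur

variable {X : Type} [MetricSpace X] {E : Type} [NormedAddCommGroup E] [NormedSpace ℝ E]

theorem dist_conj (α : (X ≃ᵢ X) →* (E ≃ᵃⁱ[ℝ] E)) (x y z : X ≃ᵢ X) (v : E) :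
    dist (α x (α y v)) (α z v) = dist (α (z⁻¹ * x * y) v) v := by
  have h1 : α (z⁻¹ * x * y) v = α z⁻¹ (α x (α y v)) := by
    rw [map_mul, map_mul]
    rfl
  rw [h1]
  conv_rhs => rw [← (α z).dist_map]
  have h2 : α z (α z⁻¹ (α x (α y v))) = α x (α y v) := by
    have := app_inv' α z⁻¹ (α x (α y v))
    rwa [inv_inv] at this
  rw [h2]

theorem almost_fixed [Countable X] (h : EP X) (hrat : RatDist X)
    (hE : Function.Surjective (NormedSpace.inclusionInDoubleDual ℝ E))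
    (α : (X ≃ᵢ X) →* (E ≃ᵃⁱ[ℝ] E)) (v : E) (B : ℝ) (hB : ∀ g, dist (α g v) v ≤ B)
    (ε : ℝ) (hε : 0 < ε) (F : Finset X)
    (hF : ∀ g : X ≃ᵢ X, (∀ x ∈ F, g x = x) → dist (α g v) v ≤ ε) :
    ∃ w : E, (∀ g, dist (α g w) w ≤ 6 * ε) ∧ dist w v ≤ B := by
  classical
  have hne := h.nonempty
  obtain ⟨e, he⟩ := exists_surjective_nat X
  choose idx hidx using he
  let Y : ℕ → Finset X := fun n => (Finset.range n).image e
  have hYmem : ∀ (x : X) (n : ℕ), idx x < n → x ∈ Y n := fun x n hn =>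
    Finset.mem_image.2 ⟨idx x, Finset.mem_range.2 hn, hidx x⟩
  have hd : ∀ n : ℕ, ∃ d : ℕ, ∀ x ∈ Y n ∪ F, ∀ y ∈ Y n ∪ F, dist x y ≤ d := by
    intro n
    obtain ⟨d, hd⟩ := exists_nat_ge (∑ p ∈ (Y n ∪ F) ×ˢ (Y n ∪ F), dist p.1 p.2)
    refine ⟨d, fun x hx y hy => ?_⟩
    exact (Finset.single_le_sum (f := fun p : X × X => dist p.1 p.2) (fun _ _ => dist_nonneg)
      (Finset.mk_mem_product hx hy)).trans hd
  choose d hd using hd
  have hg : ∀ n : ℕ, ∃ g : X ≃ᵢ X, ∀ b ∈ F, ∀ y ∈ Y n, dist (g b) y = d n := by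
    intro n
    have hd0 : (0 : ℝ) ≤ d n := Nat.cast_nonneg _
    apply h.place hrat (Y n) F (fun _ _ => (d n : ℝ))
    · intro b _ a _
      exact ⟨d n, by push_cast; rfl⟩
    · intro b _ a _ a' _
      rw [sub_self]
      exact dist_nonneg
    · intro b _ a ha a' ha'
      have := hd n a (Finset.mem_union_left _ ha) a' (Finset.mem_union_left _ ha')
      linarith
    · intro b _ b' _ a _
      rw [sub_self]
      exact dist_nonneg
    · intro b hb b' hb' a _
      have := hd n b (Finset.mem_union_right _ hb) b' (Finset.mem_union_right _ hb')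
      linarith
  choose g hg using hg
  let a : ℕ → E := fun n => α (g n) v
  have ha : ∀ n, a n = α (g n) v := fun n => rfl
  have hab : ∀ n, ‖a n‖ ≤ B + ‖v‖ := by
    intro n
    have h1 := hB (g n)
    rw [dist_eq_norm] at h1
    have h2 := norm_add_le (α (g n) v - v) v
    rw [sub_add_cancel] at h2
    rw [ha]
    linarith
  obtain ⟨w, hw⟩ := exists_weak hE a _ hab
  refine ⟨w, ?_, ?_⟩
  swap
  · have h1 : closure (convexHull ℝ {x | ∃ n, 0 ≤ n ∧ a n = x}) ⊆ Metric.closedBall v B := by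
      apply closure_minimal _ Metric.isClosed_closedBall
      apply convexHull_min _ (convex_closedBall v B)
      rintro x ⟨n, -, rfl⟩
      exact hB (g n)
    exact h1 (hw 0)
  intro k
  obtain ⟨z₁, hz₁, hwz₁⟩ := Metric.mem_closure_iff.1 (hw 0) ε hε
  obtain ⟨N₁, hz₁⟩ := exists_finite_hull a 0 z₁ hz₁
  let T : Finset X := ((Finset.range N₁) ×ˢ F).image (fun p => g p.1 p.2) ∪
    ((Finset.range N₁) ×ˢ F).image (fun p => k⁻¹ (g p.1 p.2))
  let N : ℕ := max N₁ (T.sup idx + 1)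
  have hTN : ∀ x ∈ T, ∀ m, N ≤ m → x ∈ Y m := by
    intro x hx m hm
    apply hYmem
    have h1 : idx x ≤ T.sup idx := Finset.le_sup hx
    have h2 : T.sup idx + 1 ≤ N := le_max_right _ _
    omega
  have hN₁ : N₁ ≤ N := le_max_left _ _
  obtain ⟨z₂, hz₂, hwz₂⟩ := Metric.mem_closure_iff.1 (hw N) ε hε
  obtain ⟨N₂, hz₂⟩ := exists_finite_hull a N z₂ hz₂
  -- the isometry
  let S : Finset (ℕ × X) := (Finset.range N₁ ∪ Finset.Ico N N₂) ×ˢ F
  have hcross : ∀ n < N₁, ∀ b ∈ F, ∀ m, N ≤ m → ∀ b' ∈ F,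
      dist (g n b) (g m b') = dist (g n b) (k (g m b')) := by
    intro n hn b hb m hm b' hb'
    have h1 : g n b ∈ T := Finset.mem_union_left _
      (Finset.mem_image.2 ⟨(n, b), Finset.mk_mem_product (Finset.mem_range.2 hn) hb, rfl⟩)
    have h2 : k⁻¹ (g n b) ∈ T := Finset.mem_union_right _
      (Finset.mem_image.2 ⟨(n, b), Finset.mk_mem_product (Finset.mem_range.2 hn) hb, rfl⟩)
    rw [← dist_inv k, dist_comm, hg m b' hb' _ (hTN _ h1 m hm), dist_comm (k⁻¹ (g n b)),
      hg m b' hb' _ (hTN _ h2 m hm)]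
  obtain ⟨u, hu⟩ := h.homogF hrat S (fun p => g p.1 p.2)
    (fun p => if N ≤ p.1 then k (g p.1 p.2) else g p.1 p.2) (by
      rintro ⟨n, b⟩ hi ⟨m, b'⟩ hj
      rw [Finset.mem_product, Finset.mem_union, Finset.mem_range, Finset.mem_Ico] at hi hj
      obtain ⟨hi1, hb⟩ := hi
      obtain ⟨hj1, hb'⟩ := hj
      show dist (g n b) (g m b') = dist (if N ≤ n then k (g n b) else g n b)
        (if N ≤ m then k (g m b') else g m b')
      rcases hi1 with hi1 | hi1
      · have hi1 : n < N₁ := hi1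
        rw [if_neg (by omega : ¬ N ≤ n)]
        rcases hj1 with hj1 | hj1
        · have hj1 : m < N₁ := hj1
          rw [if_neg (by omega : ¬ N ≤ m)]
        · have hj1 : N ≤ m ∧ m < N₂ := hj1
          rw [if_pos hj1.1]
          exact hcross n hi1 b hb m hj1.1 b' hb'
      · have hi1 : N ≤ n ∧ n < N₂ := hi1
        rw [if_pos hi1.1]
        rcases hj1 with hj1 | hj1
        · have hj1 : m < N₁ := hj1
          rw [if_neg (by omega : ¬ N ≤ m), dist_comm, dist_comm (k (g n b))]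
          exact hcross m hj1 b' hb' n hi1.1 b hb
        · have hj1 : N ≤ m ∧ m < N₂ := hj1
          rw [if_pos hj1.1, k.isometry.dist_eq])
  have hu1 : ∀ n < N₁, ∀ b ∈ F, u (g n b) = g n b := by
    intro n hn b hb
    have h1 := hu (n, b) (Finset.mk_mem_product
      (Finset.mem_union_left _ (Finset.mem_range.2 hn)) hb)
    have h2 : u (g n b) = if N ≤ n then k (g n b) else g n b := h1
    rw [h2, if_neg (by omega : ¬ N ≤ n)]
  have hu2 : ∀ n, N ≤ n → n < N₂ → ∀ b ∈ F, u (g n b) = k (g n b) := by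
    intro n hn hn' b hb
    have h1 := hu (n, b) (Finset.mk_mem_product
      (Finset.mem_union_right _ (Finset.mem_Ico.2 ⟨hn, hn'⟩)) hb)
    have h2 : u (g n b) = if N ≤ n then k (g n b) else g n b := h1
    rw [h2, if_pos hn]
  have hz1 : dist (α u z₁) z₁ ≤ ε := by
    have h1 : convexHull ℝ {x | ∃ n, 0 ≤ n ∧ n < N₁ ∧ a n = x} ⊆
        {z : E | dist (α u z) (AffineIsometryEquiv.refl ℝ E z) ≤ ε} := by
      apply convexHull_min _ (convex_near _ _ ε)
      rintro x ⟨n, -, hn, rfl⟩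
      show dist (α u (α (g n) v)) (α (g n) v) ≤ ε
      rw [dist_conj]
      apply hF
      intro b hb
      show (g n)⁻¹ (u (g n b)) = b
      rw [inv_app_iff]
      exact hu1 n hn b hb
    exact h1 hz₁
  have hz2 : dist (α u z₂) (α k z₂) ≤ ε := by
    have h1 : convexHull ℝ {x | ∃ n, N ≤ n ∧ n < N₂ ∧ a n = x} ⊆
        {z : E | dist (α u z) (α k z) ≤ ε} := by
      apply convexHull_min _ (convex_near _ _ ε)
      rintro x ⟨n, hn, hn', rfl⟩
      show dist (α u (α (g n) v)) (α k (α (g n) v)) ≤ ε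
      have h2 : α k (α (g n) v) = α (k * g n) v := by rw [map_mul]; rfl
      rw [h2, dist_conj]
      apply hF
      intro b hb
      show (k * g n)⁻¹ (u (g n b)) = b
      rw [inv_app_iff]
      exact hu2 n hn hn' b hb
    exact h1 hz₂
  have t1 : dist (α k w) (α k z₂) < ε := by rw [(α k).dist_map]; exact hwz₂
  have t2 : dist (α u z₂) (α u z₁) = dist z₂ z₁ := (α u).dist_map _ _
  have t3 := dist_triangle z₂ w z₁
  have t4 : dist z₂ w < ε := by rw [dist_comm]; exact hwz₂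
  have t5 : dist z₁ w < ε := by rw [dist_comm]; exact hwz₁
  have t6 := dist_triangle (α k w) (α k z₂) w
  have t7 := dist_triangle (α k z₂) (α u z₂) w
  have t8 := dist_triangle (α u z₂) (α u z₁) w
  have t9 := dist_triangle (α u z₁) z₁ w
  rw [dist_comm (α k z₂) (α u z₂)] at t7
  linarith

/-- Every continuous affine isometric action of the isometry group of the rational Urysohn space
on a reflexive Banach space has a fixed point. -/
theorem fixed [Countable X] (h : EP X) (hrat : RatDist X) [CompleteSpace E]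
    (hE : Function.Surjective (NormedSpace.inclusionInDoubleDual ℝ E))
    (α : (X ≃ᵢ X) →* (E ≃ᵃⁱ[ℝ] E))
    (hα : ∀ (v : E) (ε : ℝ), 0 < ε → ∃ F : Finset X, ∀ g : X ≃ᵢ X, (∀ x ∈ F, g x = x) →
      dist (α g v) v ≤ ε) : ∃ v : E, ∀ g, α g v = v := by
  obtain ⟨F, hF⟩ := hα 0 1 one_pos
  obtain ⟨B, hB⟩ := bounded h hrat hE α F hF
  have hstep : ∀ (v : E) (b : ℝ), 0 < b → (∀ g, dist (α g v) v ≤ b) →
      ∃ w : E, (∀ g, dist (α g w) w ≤ b / 2) ∧ dist w v ≤ b := by
    intro v b hb hv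
    obtain ⟨F, hF⟩ := hα v (b / 12) (by positivity)
    obtain ⟨w, hw1, hw2⟩ := almost_fixed h hrat hE α v b hv (b / 12) (by positivity) F hF
    exact ⟨w, fun g => (hw1 g).trans (by linarith), hw2⟩
  choose! nxt hn1 hn2 using hstep
  set C : ℝ := max B 1 with hC
  have hC0 : 0 < C := lt_of_lt_of_le one_pos (le_max_right _ _)
  let vs : ℕ → E := fun n => Nat.rec (0 : E) (fun n v => nxt v (C / 2 ^ n)) n
  have hvs : ∀ n, vs (n + 1) = nxt (vs n) (C / 2 ^ n) := fun n => rfl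
  have hP : ∀ n, ∀ g, dist (α g (vs n)) (vs n) ≤ C / 2 ^ n := by
    intro n
    induction n with
    | zero =>
      intro g
      show dist (α g 0) 0 ≤ C / 2 ^ 0
      rw [pow_zero, div_one]
      exact (hB g).trans (le_max_left _ _)
    | succ n ih =>
      intro g
      have h1 := hn1 (vs n) (C / 2 ^ n) (by positivity) ih g
      rw [hvs, pow_succ, ← div_div]
      exact h1
  have hD : ∀ n, dist (vs n) (vs (n + 1)) ≤ (2 * C) / 2 / 2 ^ n := by
    intro n
    have h1 := hn2 (vs n) (C / 2 ^ n) (by positivity) (hP n)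
    rw [dist_comm, hvs]
    have h2 : 2 * C / 2 = C := by ring
    rw [h2]
    exact h1
  obtain ⟨v, hv⟩ := cauchySeq_tendsto_of_complete (cauchySeq_of_le_geometric_two hD)
  refine ⟨v, fun g => ?_⟩
  have h1 : Tendsto (fun n => dist (α g (vs n)) (vs n)) atTop (𝓝 (dist (α g v) v)) :=
    (((α g).continuous.tendsto v).comp hv).dist hv
  have h2 : Tendsto (fun n : ℕ => C / 2 ^ n) atTop (𝓝 0) :=
    tendsto_const_nhds.div_atTop (tendsto_pow_atTop_atTop_of_one_lt one_lt_two)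
  have h3 := le_of_tendsto_of_tendsto' h1 h2 (fun n => hP n g)
  exact dist_eq_zero.1 (le_antisymm h3 dist_nonneg)

end Pool.Agent.H10Q.Ury
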